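import Pool.Agent.Y538.Bd.Core

/-!
# Bounded second order computations: the asymptotic bound
-/

set_option autoImplicit false
set_option linter.unusedSectionVars false

namespace Pool.Agent.Y538.Bd

open Finset Filter

lemma eventually_large {θ K : ℝ} (hθ : 0 < θ) (κ : ℕ) :
    ∀ᶠ m : ℕ in atTop, 3 ≤ m ∧ 200 ≤ θ ^ 2 * (m : ℝ) ^ 2 ∧ 1 ≤ Real.log m ∧
      Real.log m / 4 + (Real.log 2 + 3 * Real.log K + Real.log ((κ + 6) * Real.log m)) <
        Real.log (θ * m / 8) / 2 := by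
  have t0 : Tendsto (fun m : ℕ => (m : ℝ)) atTop atTop := tendsto_natCast_atTop_atTop
  have t1 : Tendsto (fun m : ℕ => Real.log (m : ℝ)) atTop atTop := Real.tendsto_log_atTop.comp t0
  have e1 : ∀ᶠ x : ℝ in atTop, Real.log x ≤ x / 8 := by
    have h := Real.isLittleO_log_id_atTop.def (by norm_num : (0 : ℝ) < 1 / 8)
    filter_upwards [h, eventually_ge_atTop 0] with x hx hx0
    rw [Real.norm_eq_abs, Real.norm_eq_abs, id, abs_of_nonneg hx0] at hx
    have := le_abs_self (Real.log x)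
    linarith
  set C : ℝ := Real.log 2 + 3 * Real.log K + Real.log (κ + 6) - Real.log (θ / 8) / 2 with hC
  filter_upwards [eventually_ge_atTop 3, t0.eventually (eventually_ge_atTop (200 / θ ^ 2)),
    t1.eventually (eventually_ge_atTop 1), t1.eventually e1,
    t1.eventually (eventually_gt_atTop (8 * C))] with m h1 h2 h3 h4 h5
  have hm0 : (1 : ℝ) ≤ m := by
    have : 1 ≤ m := by omega
    exact_mod_cast this
  refine ⟨h1, ?_, h3, ?_⟩
  · rw [div_le_iff₀ (by positivity)] at h2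
    have : 0 < θ ^ 2 := by positivity
    nlinarith [mul_le_mul_of_nonneg_left hm0 (by positivity : (0 : ℝ) ≤ θ ^ 2 * m)]
  · have h6 : Real.log (θ * m / 8) = Real.log (θ / 8) + Real.log m := by
      rw [← Real.log_mul (by positivity) (by positivity)]
      congr 1; ring
    have h7 : Real.log ((κ + 6) * Real.log m) = Real.log (κ + 6) + Real.log (Real.log m) := by
      rw [Real.log_mul (by positivity) (by positivity)]
    rw [h6, h7]
    linarith

theorem Jets.lower {θ K : ℝ} (hθ : 0 < θ) (hK : 1 ≤ K) (κ : ℕ) :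
    ∃ m₀ : ℕ, ∀ m : ℕ, m₀ ≤ m → ∀ a : ℕ, a ≤ m ^ κ → ∀ (L : ℕ) (W : Finset ℕ)
      (J : Jets m a L K W) (Ω : Finset (Fin m × Fin m)), θ * (m : ℝ) ^ 2 ≤ Ω.card →
      (W.card : ℝ) ≤ θ ^ 2 / (4800 * Real.log (2 * K)) * (m : ℝ) ^ 2 →
      (∀ z ∈ Ω, (∃ s < L, ∀ R, J.ve R s = row R z) ∨ ∀ R, row R z = 0) →
      θ ^ 2 / (4800 * Real.log (2 * K)) * (m : ℝ) ^ 2 * Real.log m ≤ L := by
  have hK0 : 0 < K := by linarith
  have hl2 : 0 < Real.log (2 * K) := Real.log_pos (by linarith)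
  have hl2' : 1 / 2 ≤ Real.log (2 * K) := by
    have h1 : Real.log 2 ≤ Real.log (2 * K) := Real.log_le_log (by norm_num) (by linarith)
    have h2 := Real.log_two_gt_d9
    linarith
  have hlK : 0 ≤ Real.log K := Real.log_nonneg hK
  have hlK2 : Real.log K ≤ Real.log (2 * K) := Real.log_le_log hK0 (by linarith)
  set c : ℝ := θ ^ 2 / (4800 * Real.log (2 * K)) with hc
  have hc0 : 0 < c := by positivity
  have hc1 : c ≤ θ ^ 2 / 2400 := by
    rw [hc]
    refine div_le_div_of_nonneg_left (by positivity) (by norm_num) ?_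
    linarith
  have hcK : c * (4800 * Real.log (2 * K)) = θ ^ 2 := by
    rw [hc]; field_simp
  obtain ⟨m₀, hm₀⟩ := (eventually_large (K := K) hθ κ).exists_forall_of_atTop
  refine ⟨m₀, fun m hm a ha L W J Ω hΩ hW hout => ?_⟩
  obtain ⟨h3, h200, hlog1, hbig⟩ := hm₀ m hm
  by_contra hcon
  push Not at hcon
  have hm1 : 1 ≤ m := by omega
  have hmR : (1 : ℝ) ≤ m := by exact_mod_cast hm1
  have hm2 : (0 : ℝ) < (m : ℝ) ^ 2 := by positivity
  have hθ1 : θ ≤ 1 := by
    have h1 := Finset.card_le_univ Ω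
    rw [Fintype.card_prod, Fintype.card_fin] at h1
    have h2 : (Ω.card : ℝ) ≤ (m : ℝ) ^ 2 := by
      calc (Ω.card : ℝ) ≤ ((m * m : ℕ) : ℝ) := by exact_mod_cast h1
        _ = (m : ℝ) ^ 2 := by push_cast; ring
    by_contra hc'
    push Not at hc'
    nlinarith
  have hθ2 : θ ^ 2 ≤ θ := by nlinarith
  set r : ℕ := ⌊θ ^ 2 * (m : ℝ) ^ 2 / 100⌋₊ with hr
  have hr_le : (r : ℝ) ≤ θ ^ 2 * (m : ℝ) ^ 2 / 100 := Nat.floor_le (by positivity)
  have hr_ge : θ ^ 2 * (m : ℝ) ^ 2 / 200 ≤ r := by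
    have h1 := Nat.lt_floor_add_one (θ ^ 2 * (m : ℝ) ^ 2 / 100)
    rw [← hr] at h1
    linarith
  have hr0 : (0 : ℝ) < r := by
    have : 0 < θ ^ 2 * (m : ℝ) ^ 2 / 200 := by positivity
    linarith
  have hr1 : 1 ≤ r := by
    have : 0 < r := by exact_mod_cast hr0
    omega
  have hN : L ≤ (L / r + 1) * r := by
    have := Nat.div_add_mod L r
    have h2 := Nat.mod_lt L (by omega : 0 < r)
    nlinarith
  -- `M`
  have hlogm : Real.log m ≤ m := (Real.log_le_sub_one_of_pos (by linarith)).trans (by linarith)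
  have hL3 : (L : ℝ) ≤ (m : ℝ) ^ 3 := by
    have h1 : c ≤ 1 := by
      have : θ ^ 2 ≤ 1 := by nlinarith
      linarith
    calc (L : ℝ) ≤ c * (m : ℝ) ^ 2 * Real.log m := hcon.le
      _ ≤ 1 * (m : ℝ) ^ 2 * m := by gcongr
      _ = (m : ℝ) ^ 3 := by ring
  have hMa : (L : ℝ) * a ≤ (m : ℝ) ^ (κ + 3) := by
    have h1 : (a : ℝ) ≤ (m : ℝ) ^ κ := by exact_mod_cast ha
    calc (L : ℝ) * a ≤ (m : ℝ) ^ 3 * (m : ℝ) ^ κ := by gcongr
      _ = (m : ℝ) ^ (κ + 3) := by rw [← pow_add]; congr 1; ring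
  have hM1 : (1 : ℝ) ≤ (m : ℝ) ^ (κ + 3) := one_le_pow₀ hmR
  have hWc : (W.card : ℝ) ≤ θ ^ 2 * (m : ℝ) ^ 2 / 2400 := by
    calc (W.card : ℝ) ≤ c * (m : ℝ) ^ 2 := hW
      _ ≤ θ ^ 2 / 2400 * (m : ℝ) ^ 2 := by gcongr
      _ = _ := by ring
  have hθm : θ ^ 2 * (m : ℝ) ^ 2 ≤ θ * (m : ℝ) ^ 2 := mul_le_mul_of_nonneg_right hθ2 hm2.le
  have main := J.core hm1 hK hθ hr1 hN hM1 hMa Ω hΩ (k := r) (by linarith) (by
    have : 0 ≤ θ ^ 2 * (m : ℝ) ^ 2 := by positivity
    linarith) hout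
  -- logarithms
  set lam : ℝ := Real.log (8 * (m : ℝ) ^ (κ + 3) * Real.exp (1 / 2)) with hlam
  have hlam_le : lam ≤ (κ + 6) * Real.log m := by
    rw [hlam, Real.log_mul (by positivity) (by positivity), Real.log_mul (by norm_num)
      (by positivity), Real.log_exp, Real.log_pow]
    have h8 : Real.log 8 ≤ 5 / 2 := by
      have : Real.log 8 = 3 * Real.log 2 := by
        rw [show (8 : ℝ) = 2 ^ 3 by norm_num, Real.log_pow]; norm_num
      rw [this]
      have := Real.log_two_lt_d9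
      linarith
    push_cast
    have e1 : ((κ : ℝ) + 6) * Real.log m = (κ + 3) * Real.log m + 3 * Real.log m := by ring
    linarith
  have hlam0 : 0 < lam := by
    rw [hlam]
    refine Real.log_pos ?_
    have h1 : (1 : ℝ) ≤ Real.exp (1 / 2) := Real.one_le_exp (by norm_num)
    calc (1 : ℝ) < 8 * 1 * 1 := by norm_num
      _ ≤ 8 * (m : ℝ) ^ (κ + 3) * Real.exp (1 / 2) := by gcongr
  have hsq : 0 < Real.sqrt (θ * m / 8) := Real.sqrt_pos.mpr (by positivity)
  have hl := Real.log_le_log (by positivity) main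
  rw [Real.log_pow, Real.log_sqrt (by positivity), Real.log_mul (by positivity) (by positivity),
    Real.log_pow, Real.log_mul (by positivity) (by positivity),
    Real.log_mul (by norm_num) (by positivity), Real.log_pow,
    Real.log_mul (by positivity) (by positivity), Real.log_pow, Real.log_pow] at hl
  push_cast at hl
  have hdiv : ((L / r : ℕ) : ℝ) ≤ (L : ℝ) / r := Nat.cast_div_le
  have hrdiv : (r : ℝ) * ((L / r : ℕ) : ℝ) ≤ L := by
    calc (r : ℝ) * ((L / r : ℕ) : ℝ) ≤ r * ((L : ℝ) / r) := by gcongr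
      _ = L := by field_simp
  have hloglam : Real.log lam ≤ Real.log ((κ + 6) * Real.log m) := Real.log_le_log hlam0 hlam_le
  -- the bound
  have h1 : (r : ℝ) * (Real.log (θ * m / 8) / 2) ≤
      r * (Real.log 2 + 3 * Real.log K + Real.log ((κ + 6) * Real.log m)) +
        3 * L * Real.log (2 * K) := by
    have h2 : (r : ℝ) * (((L / r : ℕ) : ℝ) * Real.log K) ≤ L * Real.log (2 * K) := by
      calc (r : ℝ) * (((L / r : ℕ) : ℝ) * Real.log K) =
          (r * ((L / r : ℕ) : ℝ)) * Real.log K := by ring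
        _ ≤ L * Real.log (2 * K) := by gcongr
    have h3 : (r : ℝ) * Real.log lam ≤ r * Real.log ((κ + 6) * Real.log m) :=
      mul_le_mul_of_nonneg_left hloglam hr0.le
    calc (r : ℝ) * (Real.log (θ * m / 8) / 2) ≤ _ := hl
      _ = r * Real.log 2 + r * (((L / r : ℕ) : ℝ) * Real.log K) + 3 * (r * Real.log K) +
          r * Real.log lam + 2 * (L * Real.log (2 * K)) := by ring
      _ ≤ r * Real.log 2 + L * Real.log (2 * K) + 3 * (r * Real.log K) +
          r * Real.log ((κ + 6) * Real.log m) + 2 * (L * Real.log (2 * K)) := by linarith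
      _ = _ := by ring
  have h2 : (r : ℝ) * (Real.log m / 4) < 3 * L * Real.log (2 * K) := by
    have h3 := mul_lt_mul_of_pos_left hbig hr0
    have h4 : (r : ℝ) * (Real.log m / 4 + (Real.log 2 + 3 * Real.log K +
        Real.log ((κ + 6) * Real.log m))) = r * (Real.log m / 4) +
        r * (Real.log 2 + 3 * Real.log K + Real.log ((κ + 6) * Real.log m)) := by ring
    linarith
  have h3 : 3 * (L : ℝ) * Real.log (2 * K) ≤ θ ^ 2 * (m : ℝ) ^ 2 * Real.log m / 1600 := by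
    calc 3 * (L : ℝ) * Real.log (2 * K) ≤ 3 * (c * (m : ℝ) ^ 2 * Real.log m) * Real.log (2 * K) := by
          gcongr
      _ = (c * (4800 * Real.log (2 * K))) * (m : ℝ) ^ 2 * Real.log m / 1600 := by ring
      _ = _ := by rw [hcK]
  have h4 : θ ^ 2 * (m : ℝ) ^ 2 * Real.log m / 1600 ≤ (r : ℝ) * (Real.log m / 4) := by
    have h5 : θ ^ 2 * (m : ℝ) ^ 2 / 200 * (Real.log m / 4) ≤ (r : ℝ) * (Real.log m / 4) := by
      gcongr
    have h6 : 0 ≤ θ ^ 2 * (m : ℝ) ^ 2 * Real.log m := by positivity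
    linarith
  linarith

end Pool.Agent.Y538.Bd
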