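import Pool.Agent.Y538.Bd.Defs
import Pool.Agent.Y538.Bd.Asym
import Pool.Agent.Y538.Fun.GradMain

/-!
# Second order data of a network
-/

set_option autoImplicit false
set_option linter.unusedSectionVars false

namespace Pool.Agent.Y538.Bd

open Topology Filter Finset Pool.Agent.Y538.Net Pool.Agent.Y538.Fun

section comp

variable {E : Type} [NormedAddCommGroup E] [NormedSpace ℝ E] {a : ℕ}

/-- First and second derivative of a composition. -/
lemma comp_derivs {φ : (Fin a → ℝ) → ℝ} {u : Fin a → E → ℝ} {x : E}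
    (hu : ∀ i, ContDiffAt ℝ 2 (u i) x) (hφ : ContDiffAt ℝ 2 φ (fun i => u i x)) :
    (∀ h : E, fderiv ℝ (fun y => φ (fun i => u i y)) x h =
      ∑ i, pd φ i (fun i => u i x) * fderiv ℝ (u i) x h) ∧
    ∀ h1 h2 : E,
      H2 (fun y => φ (fun i => u i y)) x h1 h2 =
        ∑ i, pd φ i (fun i => u i x) * H2 (u i) x h1 h2 +
        ∑ i, ∑ j, pd (pd φ i) j (fun i => u i x) * (fderiv ℝ (u j) x h1 * fderiv ℝ (u i) x h2) := by
  classical
  set U : E → (Fin a → ℝ) := fun y i => u i y with hU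
  have hUc : ContDiffAt ℝ 2 U x := contDiffAt_pi.mpr hu
  have hUcont : ContinuousAt U x := hUc.continuousAt
  have hchain : ∀ᶠ y in 𝓝 x, fderiv ℝ (fun y => φ (U y)) y =
      ∑ i, pd φ i (U y) • fderiv ℝ (u i) y := by
    have h1 : ∀ᶠ y in 𝓝 x, DifferentiableAt ℝ φ (U y) := hUcont.eventually (ev1 hφ)
    have h2 : ∀ᶠ y in 𝓝 x, ∀ i, DifferentiableAt ℝ (u i) y :=
      eventually_all.mpr fun i => ev1 (hu i)
    filter_upwards [h1, h2] with y g1 g2
    have g3 : HasFDerivAt U (ContinuousLinearMap.pi fun i => fderiv ℝ (u i) y) y :=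
      hasFDerivAt_pi.mpr fun i => (g2 i).hasFDerivAt
    have g4 := (g1.hasFDerivAt.comp y g3).fderiv
    have g5 : fderiv ℝ (fun y => φ (U y)) y = fderiv ℝ (φ ∘ U) y := rfl
    rw [g5, g4]
    refine ContinuousLinearMap.ext fun h => ?_
    rw [ContinuousLinearMap.comp_apply, _root_.sum_apply]
    have g6 : (ContinuousLinearMap.pi fun i => fderiv ℝ (u i) y) h =
        ∑ i, (fderiv ℝ (u i) y h) • (Pi.single i (1 : ℝ) : Fin a → ℝ) := by
      funext j
      rw [Finset.sum_apply]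
      simp [Pi.single_apply]
    rw [g6, map_sum]
    refine Finset.sum_congr rfl fun i _ => ?_
    rw [map_smul, _root_.smul_apply, smul_eq_mul, smul_eq_mul, mul_comm]
    rfl
  have hp : ∀ i, DifferentiableAt ℝ (pd φ i) (U x) := by
    intro i
    have := diff2 hφ
    exact this.clm_apply (differentiableAt_const _)
  have hpU : ∀ i, DifferentiableAt ℝ (fun y => pd φ i (U y)) x := fun i =>
    (hp i).comp x (diff1 hUc)
  have hder : HasFDerivAt (fun y => ∑ i, pd φ i (U y) • fderiv ℝ (u i) y)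
      (∑ i, (pd φ i (U x) • fderiv ℝ (fderiv ℝ (u i)) x +
        (fderiv ℝ (fun y => pd φ i (U y)) x).smulRight (fderiv ℝ (u i) x))) x :=
    HasFDerivAt.fun_sum fun i _ => (hpU i).hasFDerivAt.smul (diff2 (hu i)).hasFDerivAt
  have hpd : ∀ i h, fderiv ℝ (fun y => pd φ i (U y)) x h =
      ∑ j, pd (pd φ i) j (U x) * fderiv ℝ (u j) x h := by
    intro i h
    have g3 : HasFDerivAt U (ContinuousLinearMap.pi fun i => fderiv ℝ (u i) x) x :=
      hasFDerivAt_pi.mpr fun i => (diff1 (hu i)).hasFDerivAt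
    have g4 := ((hp i).hasFDerivAt.comp x g3).fderiv
    have g5 : fderiv ℝ (fun y => pd φ i (U y)) x = fderiv ℝ (pd φ i ∘ U) x := rfl
    rw [g5, g4, ContinuousLinearMap.comp_apply]
    have g6 : (ContinuousLinearMap.pi fun i => fderiv ℝ (u i) x) h =
        ∑ i, (fderiv ℝ (u i) x h) • (Pi.single i (1 : ℝ) : Fin a → ℝ) := by
      funext j
      rw [Finset.sum_apply]
      simp [Pi.single_apply]
    rw [g6, map_sum]
    refine Finset.sum_congr rfl fun i _ => ?_
    rw [map_smul, smul_eq_mul, mul_comm]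
    rfl
  constructor
  · intro h
    rw [hchain.self_of_nhds, _root_.sum_apply]
    exact Finset.sum_congr rfl fun i _ => by rw [_root_.smul_apply, smul_eq_mul]
  · intro h1 h2
    have hfin : H2 (fun y => φ (fun i => u i y)) x = ∑ i, (pd φ i (U x) •
        fderiv ℝ (fderiv ℝ (u i)) x +
          (fderiv ℝ (fun y => pd φ i (U y)) x).smulRight (fderiv ℝ (u i) x)) := by
      unfold H2
      have g1 : fderiv ℝ (fun y => φ (fun i => u i y)) =ᶠ[𝓝 x]
          fun y => ∑ i, pd φ i (U y) • fderiv ℝ (u i) y := hchain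
      rw [g1.fderiv_eq]
      exact hder.fderiv
    rw [hfin, _root_.sum_apply, _root_.sum_apply,
      ← Finset.sum_add_distrib]
    refine Finset.sum_congr rfl fun i _ => ?_
    rw [_root_.add_apply, _root_.add_apply,
      _root_.smul_apply, _root_.smul_apply,
      ContinuousLinearMap.smulRight_apply, _root_.smul_apply, hpd, Finset.sum_smul,
      smul_eq_mul]
    congr 1
    refine Finset.sum_congr rfl fun j _ => ?_
    rw [smul_eq_mul]
    ring

end comp

section data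

variable {m a : ℕ}

/-- a vector as a matrix -/
def mt (R : EuclideanSpace ℝ (Fin m × Fin m)) : Fin m → Fin m → ℝ := fun i k => R (i, k)

/-- the gradient with respect to the first matrix -/
noncomputable def gA (x : Pairs ℝ m) (f : Pairs ℝ m → ℝ) : EuclideanSpace ℝ (Fin m × Fin m) :=
  WithLp.toLp 2 fun p => fderiv ℝ f x (unit p, 0)

/-- the gradient with respect to the second matrix -/
noncomputable def gB (x : Pairs ℝ m) (f : Pairs ℝ m → ℝ) : EuclideanSpace ℝ (Fin m × Fin m) :=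
  WithLp.toLp 2 fun p => fderiv ℝ f x (0, unit p)

/-- the mixed second derivative -/
noncomputable def gM (x : Pairs ℝ m) (R : EuclideanSpace ℝ (Fin m × Fin m))
    (f : Pairs ℝ m → ℝ) : EuclideanSpace ℝ (Fin m × Fin m) :=
  WithLp.toLp 2 fun q => H2 f x (mt R, 0) (0, unit q)

lemma mt_eq (R : EuclideanSpace ℝ (Fin m × Fin m)) : mt R = ∑ p, R p • (unit p : Fin m → Fin m → ℝ) := by
  funext k l
  rw [Finset.sum_apply, Finset.sum_apply, Fintype.sum_eq_single (k, l)]
  · simp [mt, unit]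
  · rintro ⟨i, j⟩ hne
    have : ¬ (k = i ∧ l = j) := by
      rintro ⟨rfl, rfl⟩; exact hne rfl
    simp [unit, this]

lemma inner_gA (x : Pairs ℝ m) (f : Pairs ℝ m → ℝ) (R : EuclideanSpace ℝ (Fin m × Fin m)) :
    inner ℝ (gA x f) R = fderiv ℝ f x (mt R, 0) := by
  rw [PiLp.inner_apply]
  have h1 : ((mt R, 0) : Pairs ℝ m) = ∑ p, R p • ((unit p, 0) : Pairs ℝ m) := by
    have h2 : ∑ p, R p • ((unit p, 0) : Pairs ℝ m) = ((∑ p, R p • (unit p : Fin m → Fin m → ℝ)), 0) := by
      refine Prod.ext ?_ ?_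
      · rw [Prod.fst_sum]
        exact Finset.sum_congr rfl fun p _ => by simp
      · rw [Prod.snd_sum]
        simp
    rw [h2, ← mt_eq]
  rw [h1, map_sum]
  refine Finset.sum_congr rfl fun p _ => ?_
  rw [map_smul, smul_eq_mul]
  simp [gA]

lemma gradSq_eq (x : Pairs ℝ m) (f : Pairs ℝ m → ℝ) :
    gradSq f x = ‖gA x f‖ ^ 2 + ‖gB x f‖ ^ 2 := by
  rw [norm_sq_eq, norm_sq_eq, gradSq, Finset.sum_add_distrib]
  rfl

lemma one_contDiff {D : Set (Pairs ℝ m)} {f : Pairs ℝ m → ℝ} (h : OneMatrix D f) {x : Pairs ℝ m}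
    (hx : x ∈ D) : ContDiffAt ℝ 2 f x := by
  rcases h with ⟨ψ, hψ, rfl⟩ | ⟨ψ, hψ, rfl⟩
  · exact fst_contDiff (hψ x hx)
  · exact snd_contDiff (hψ x hx)

lemma one_mixed {D : Set (Pairs ℝ m)} {f : Pairs ℝ m → ℝ} (h : OneMatrix D f) {x : Pairs ℝ m}
    (hx : x ∈ D) (R : EuclideanSpace ℝ (Fin m × Fin m)) : gM x R f = 0 := by
  rcases h with ⟨ψ, hψ, rfl⟩ | ⟨ψ, hψ, rfl⟩
  · ext q
    simp only [gM]
    rw [mixed_fst (hψ x hx)]
    rfl
  · ext q
    simp only [gM]
    rw [mixed_snd (hψ x hx)]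
    rfl

end data

namespace Network

variable {m a : ℕ} (N : Network m a)

lemma contDiff_gate {x : Pairs ℝ m} (hx : x ∈ N.D) :
    ∀ l < N.L, ContDiffAt ℝ 2 (N.g l) x ∧ ∀ i, ContDiffAt ℝ 2 (N.u l i) x := by
  intro l
  induction l using Nat.strong_induction_on with
  | _ l ih =>
    intro hl
    have h1 : ∀ i, ContDiffAt ℝ 2 (N.u l i) x := by
      intro i
      rcases N.input l hl i with ⟨s, hs, h⟩ | h
      · rw [h]; exact (ih s hs (hs.trans hl)).1
      · exact one_contDiff h hx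
    refine ⟨?_, h1⟩
    have h2 : ContDiffAt ℝ 2 (fun y => N.φ l (fun i => N.u l i y)) x := by
      have h3 : ContDiffAt ℝ 2 (fun y => (fun i => N.u l i y)) x := contDiffAt_pi.mpr h1
      exact ContDiffAt.comp (g := N.φ l) x (N.gate l hl x hx).1 h3
    refine h2.congr_of_eventuallyEq ?_
    filter_upwards [N.isOpen.mem_nhds hx] with y hy
    exact (N.gate l hl y hy).2

/-- The second order data of a network. -/
noncomputable def jets {x : Pairs ℝ m} (hx : x ∈ N.D) {K : ℝ} (hK : 0 ≤ K) (W : Finset ℕ)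
    (hW : ∀ l < N.L, l ∉ W → N.Bounded K x l) : Jets m a N.L K W where
  al := fun l => gA x (N.g l)
  be := fun l => gB x (N.g l)
  ve := fun R l => gM x R (N.g l)
  A := fun l i => gA x (N.u l i)
  B := fun l i => gB x (N.u l i)
  V := fun R l i => gM x R (N.u l i)
  c := fun l i => pd (N.φ l) i (fun i => N.u l i x)
  h := fun l i j => pd (pd (N.φ l) i) j (fun i => N.u l i x)
  hc := fun l hl hlW => (hW l hl hlW).1
  hh := fun l hl hlW => (hW l hl hlW).2.1
  hal := by
    intro l hl hlW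
    have h1 := comp_derivs (N.contDiff_gate hx l hl).2 (N.gate l hl x hx).1
    have h2 : N.g l =ᶠ[𝓝 x] fun y => N.φ l (fun i => N.u l i y) := by
      filter_upwards [N.isOpen.mem_nhds hx] with y hy
      exact (N.gate l hl y hy).2
    ext p
    rw [WithLp.ofLp_sum, Finset.sum_apply]
    simp only [gA, PiLp.smul_apply, smul_eq_mul]
    rw [h2.fderiv_eq, h1.1]
  hbe := by
    intro l hl hlW
    have h1 := comp_derivs (N.contDiff_gate hx l hl).2 (N.gate l hl x hx).1
    have h2 : N.g l =ᶠ[𝓝 x] fun y => N.φ l (fun i => N.u l i y) := by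
      filter_upwards [N.isOpen.mem_nhds hx] with y hy
      exact (N.gate l hl y hy).2
    ext p
    rw [WithLp.ofLp_sum, Finset.sum_apply]
    simp only [gB, PiLp.smul_apply, smul_eq_mul]
    rw [h2.fderiv_eq, h1.1]
  hve := by
    intro l hl hlW R
    have h1 := comp_derivs (N.contDiff_gate hx l hl).2 (N.gate l hl x hx).1
    have h2 : N.g l =ᶠ[𝓝 x] fun y => N.φ l (fun i => N.u l i y) := by
      filter_upwards [N.isOpen.mem_nhds hx] with y hy
      exact (N.gate l hl y hy).2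
    ext q
    rw [PiLp.add_apply, WithLp.ofLp_sum, Finset.sum_apply, WithLp.ofLp_sum, Finset.sum_apply]
    simp only [inner_gA]
    have e1 : (gM x R (N.g l)) q = H2 (N.g l) x (mt R, 0) (0, unit q) := rfl
    rw [e1, H2_congr h2, h1.2]
    congr 1
    refine Finset.sum_congr rfl fun i _ => ?_
    rw [WithLp.ofLp_sum, Finset.sum_apply]
    refine Finset.sum_congr rfl fun j _ => ?_
    simp only [gB, PiLp.smul_apply, smul_eq_mul]
    ring
  hin := by
    intro l hl hlW i
    rcases (hW l hl hlW).2.2 i with ⟨s, hs, h⟩ | h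
    · exact Or.inl ⟨s, hs, by rw [h], by rw [h], fun R => by rw [h]⟩
    · rcases N.input l hl i with ⟨s, hs, h'⟩ | h'
      · exact Or.inl ⟨s, hs, by rw [h'], by rw [h'], fun R => by rw [h']⟩
      · refine Or.inr ⟨?_, ?_, fun R => one_mixed h' hx R⟩
        · rw [gradSq_eq] at h
          have h2 : ‖gA x (N.u l i)‖ ^ 2 ≤ K ^ 2 := by nlinarith [sq_nonneg ‖gB x (N.u l i)‖]
          exact (pow_le_pow_iff_left₀ (norm_nonneg _) hK two_ne_zero).mp h2
        · rw [gradSq_eq] at h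
          have h2 : ‖gB x (N.u l i)‖ ^ 2 ≤ K ^ 2 := by nlinarith [sq_nonneg ‖gA x (N.u l i)‖]
          exact (pow_le_pow_iff_left₀ (norm_nonneg _) hK two_ne_zero).mp h2

/-- **The local lower bound.** -/
theorem local_lower {θ K : ℝ} (hθ : 0 < θ) (hK : 1 ≤ K) (κ : ℕ) :
    ∃ m₀ : ℕ, ∀ m : ℕ, m₀ ≤ m → ∀ a : ℕ, a ≤ m ^ κ → ∀ (N : Network m a)
      (Ω : Finset (Fin m × Fin m)), θ * (m : ℝ) ^ 2 ≤ Ω.card → ∀ x ∈ N.D,
      (∀ z ∈ Ω, ∀ᶠ y in 𝓝 x, N.F z y = mm y z.1 z.2) →
      (N.unbounded K x : ℝ) ≤ θ ^ 2 / (4800 * Real.log (2 * K)) * (m : ℝ) ^ 2 →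
      θ ^ 2 / (4800 * Real.log (2 * K)) * (m : ℝ) ^ 2 * Real.log m ≤ N.L := by
  classical
  obtain ⟨m₀, H⟩ := Jets.lower hθ hK κ
  refine ⟨m₀, fun m hm a ha N Ω hΩ x hx hF hW => ?_⟩
  have hfin : {l | l < N.L ∧ ¬ N.Bounded K x l}.Finite :=
    (Set.finite_lt_nat N.L).subset fun l hl => hl.1
  set W : Finset ℕ := hfin.toFinset with hWdef
  have hWc : W.card = N.unbounded K x := by
    rw [hWdef, Network.unbounded, Set.ncard_eq_toFinset_card _ hfin]
  have hWb : ∀ l < N.L, l ∉ W → N.Bounded K x l := by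
    intro l hl hlW
    by_contra hcon
    exact hlW (hfin.mem_toFinset.mpr ⟨hl, hcon⟩)
  refine H m hm a ha N.L W (N.jets hx (by linarith) W hWb) Ω hΩ (by rw [hWc]; exact hW) ?_
  intro z hz
  have hkey : ∀ R, gM x R (N.F z) = row R z := by
    intro R
    ext q
    have e1 : (gM x R (N.F z)) q = H2 (N.F z) x (mt R, 0) (0, unit q) := rfl
    let ℓ : (Fin m → Fin m → ℝ) →L[ℝ] ℝ := (ContinuousLinearMap.proj z.2).comp
      (ContinuousLinearMap.proj (R := ℝ) (φ := fun _ : Fin m => Fin m → ℝ) z.1)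
    have h2 : N.F z =ᶠ[𝓝 x] fun y : Pairs ℝ m => (fun C : Fin m → Fin m → ℝ => C z.1 z.2) (mm y) :=
      hF z hz
    have h3 : (fun C : Fin m → Fin m → ℝ => C z.1 z.2) = ℓ := rfl
    rw [e1, H2_congr h2, h3, mixed_mm (φ := ℓ) ℓ.contDiff.contDiffAt]
    have h4 : fderiv ℝ (ℓ : (Fin m → Fin m → ℝ) → ℝ) = fun _ => ℓ := by
      funext C; exact ℓ.fderiv
    rw [h4, fderiv_const_apply]
    have h5 : ℓ (mm ((mt R, unit q) : Pairs ℝ m)) = mm ((mt R, unit q) : Pairs ℝ m) z.1 z.2 := rfl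
    rw [h5]
    simp only [_root_.zero_apply, add_zero, mm, row_apply]
    rw [Fintype.sum_eq_single q.1]
    · by_cases h6 : z.2 = q.2
      · simp [mt, unit, h6]
      · have h6' : ¬ q.2 = z.2 := fun h => h6 h.symm
        simp [unit, h6, h6']
    · intro k hk
      simp [unit, hk]
  rcases N.output z with ⟨s, hs, h⟩ | h
  · refine Or.inl ⟨s, hs, fun R => ?_⟩
    rw [← hkey R, h]
    rfl
  · refine Or.inr fun R => ?_
    rw [← hkey R]
    exact one_mixed h hx R

/-- In the interior of the closure of the set where the network is right it is right nearby. -/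
lemma right_nearby {Ω : Finset (Fin m × Fin m)} {x : Pairs ℝ m} (hx : x ∈ N.D)
    (hxi : x ∈ interior (closure {y : Pairs ℝ m | ∀ z ∈ Ω, N.F z y = mm y z.1 z.2})) :
    ∀ z ∈ Ω, ∀ᶠ y in 𝓝 x, N.F z y = mm y z.1 z.2 := by
  intro z hz
  filter_upwards [isOpen_interior.mem_nhds hxi, N.isOpen.mem_nhds hx] with y hy1 hy2
  have hy3 := interior_subset hy1
  have : NeBot (𝓝[{y : Pairs ℝ m | ∀ z ∈ Ω, N.F z y = mm y z.1 z.2}] y) :=
    mem_closure_iff_nhdsWithin_neBot.mp hy3
  have hcd : ContDiffAt ℝ 2 (N.F z) y := by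
    rcases N.output z with ⟨s, hs, h⟩ | h
    · rw [h]; exact (N.contDiff_gate hy2 s hs).1
    · exact one_contDiff h hy2
  have hcont : Continuous fun y : Pairs ℝ m => mm y z.1 z.2 := by
    have h1 : Continuous fun y : Pairs ℝ m => mm y := contDiff_mm.continuous
    exact (continuous_apply z.2).comp ((continuous_apply z.1).comp h1)
  have t1 : Tendsto (N.F z) (𝓝[{y : Pairs ℝ m | ∀ z ∈ Ω, N.F z y = mm y z.1 z.2}] y)
      (𝓝 (N.F z y)) := hcd.continuousAt.mono_left nhdsWithin_le_nhds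
  have t2 : Tendsto (N.F z) (𝓝[{y : Pairs ℝ m | ∀ z ∈ Ω, N.F z y = mm y z.1 z.2}] y)
      (𝓝 (mm y z.1 z.2)) := by
    refine ((hcont.continuousAt (x := y)).mono_left nhdsWithin_le_nhds).congr' ?_
    filter_upwards [self_mem_nhdsWithin] with w hw
    exact (hw z hz).symm
  exact tendsto_nhds_unique t1 t2

end Network

end Pool.Agent.Y538.Bd
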