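import Pool.Agent.Y538.Bd.Prob

/-!
# The rows of a random matrix, placed in the columns, are spread
-/

set_option autoImplicit false
set_option linter.unusedSectionVars false

namespace Pool.Agent.Y538.Bd

open Finset

variable {m : ℕ}

/-- The linear form `Y ↦ (R Y) i j` as a vector. -/
noncomputable def row (R : EuclideanSpace ℝ (Fin m × Fin m)) (z : Fin m × Fin m) :
    EuclideanSpace ℝ (Fin m × Fin m) :=
  WithLp.toLp 2 fun q => if q.2 = z.2 then R (z.1, q.1) else 0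

lemma row_apply (R : EuclideanSpace ℝ (Fin m × Fin m)) (z q : Fin m × Fin m) :
    row R z q = if q.2 = z.2 then R (z.1, q.1) else 0 := rfl

lemma row_sub (R N : EuclideanSpace ℝ (Fin m × Fin m)) (z : Fin m × Fin m) :
    row (R - N) z = row R z - row N z := by
  ext q
  rw [PiLp.sub_apply]
  simp only [row_apply, PiLp.sub_apply]
  split_ifs <;> simp

lemma row_norm (R : EuclideanSpace ℝ (Fin m × Fin m)) (z : Fin m × Fin m) :
    ‖row R z‖ ^ 2 = ∑ k, R (z.1, k) ^ 2 := by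
  rw [norm_sq_eq, Fintype.sum_prod_type]
  refine Finset.sum_congr rfl fun k _ => ?_
  simp only [row_apply]
  rw [Fintype.sum_eq_single z.2]
  · simp
  · intro j hj; simp [hj]

lemma sum_row_norm (R : EuclideanSpace ℝ (Fin m × Fin m)) :
    ∑ z, ‖row R z‖ ^ 2 = m * ‖R‖ ^ 2 := by
  simp only [row_norm]
  rw [norm_sq_eq, Fintype.sum_prod_type, Fintype.sum_prod_type, Finset.mul_sum]
  refine Finset.sum_congr rfl fun i _ => ?_
  simp

lemma row_inner (R v : EuclideanSpace ℝ (Fin m × Fin m)) (z : Fin m × Fin m) :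
    inner ℝ v (row R z) = ∑ k, R (z.1, k) * v (k, z.2) := by
  rw [PiLp.inner_apply, Fintype.sum_prod_type]
  refine Finset.sum_congr rfl fun k _ => ?_
  rw [Fintype.sum_eq_single z.2]
  · simp [row_apply]
  · intro j hj; simp [row_apply, hj]

/-- The operator `v ↦ Rᵀ R v`. -/
noncomputable def gram (R v : EuclideanSpace ℝ (Fin m × Fin m)) :
    EuclideanSpace ℝ (Fin m × Fin m) :=
  WithLp.toLp 2 fun q => ∑ k', (∑ i, R (i, q.1) * R (i, k')) * v (k', q.2)

lemma gram_apply (R v : EuclideanSpace ℝ (Fin m × Fin m)) (q : Fin m × Fin m) :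
    gram R v q = ∑ k', (∑ i, R (i, q.1) * R (i, k')) * v (k', q.2) := rfl

lemma sum_inner_sq (R v : EuclideanSpace ℝ (Fin m × Fin m)) :
    ∑ z, inner ℝ v (row R z) ^ 2 = inner ℝ v (gram R v) := by
  have h1 : ∀ z : Fin m × Fin m, inner ℝ v (row R z) ^ 2 =
      ∑ k, ∑ k', R (z.1, k) * v (k, z.2) * (R (z.1, k') * v (k', z.2)) := by
    intro z
    rw [row_inner, pow_two, Finset.sum_mul_sum]
  simp only [h1]
  have h2 : inner ℝ v (gram R v) =
      ∑ j, ∑ k, ∑ k', ∑ i, R (i, k) * v (k, j) * (R (i, k') * v (k', j)) := by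
    rw [PiLp.inner_apply, Fintype.sum_prod_type, Finset.sum_comm]
    refine Finset.sum_congr rfl fun j _ => Finset.sum_congr rfl fun k _ => ?_
    rw [gram_apply]
    simp only [RCLike.inner_apply, conj_trivial]
    rw [Finset.sum_mul]
    refine Finset.sum_congr rfl fun k' _ => ?_
    rw [Finset.sum_mul, Finset.sum_mul]
    refine Finset.sum_congr rfl fun i _ => ?_
    ring
  rw [h2, Fintype.sum_prod_type, Finset.sum_comm]
  refine Finset.sum_congr rfl fun j _ => ?_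
  rw [Finset.sum_comm]
  refine Finset.sum_congr rfl fun k _ => ?_
  rw [Finset.sum_comm]

/-- the rows of the Gram matrix -/
noncomputable def grow (R : EuclideanSpace ℝ (Fin m × Fin m)) (q : Fin m × Fin m) :
    EuclideanSpace ℝ (Fin m × Fin m) :=
  WithLp.toLp 2 fun q' => if q'.2 = q.2 then ∑ i, R (i, q.1) * R (i, q'.1) else 0

lemma grow_inner (R v : EuclideanSpace ℝ (Fin m × Fin m)) (q : Fin m × Fin m) :
    inner ℝ v (grow R q) = gram R v q := by
  rw [PiLp.inner_apply, Fintype.sum_prod_type, gram_apply]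
  refine Finset.sum_congr rfl fun k _ => ?_
  rw [Fintype.sum_eq_single q.2]
  · simp [grow]
  · intro j hj; simp [grow, hj]

lemma sum_grow_norm (R : EuclideanSpace ℝ (Fin m × Fin m)) :
    ∑ q, ‖grow R q‖ ^ 2 = m * ∑ j, ∑ j', (∑ i, R (i, j) * R (i, j')) ^ 2 := by
  have h1 : ∀ q, ‖grow R q‖ ^ 2 = ∑ j', (∑ i, R (i, q.1) * R (i, j')) ^ 2 := by
    intro q
    rw [norm_sq_eq, Fintype.sum_prod_type]
    refine Finset.sum_congr rfl fun k _ => ?_
    rw [Fintype.sum_eq_single q.2]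
    · simp [grow]
    · intro j hj; simp [grow, hj]
  simp only [h1]
  rw [Fintype.sum_prod_type, Finset.mul_sum]
  refine Finset.sum_congr rfl fun i _ => ?_
  simp

/-- The projections to a subspace of small dimension are small. -/
theorem sum_proj_row (R : EuclideanSpace ℝ (Fin m × Fin m))
    (hR : ∑ j, ∑ j', (∑ i, R (i, j) * R (i, j')) ^ 2 ≤ 8 * (m : ℝ) ^ 3)
    (V : Submodule ℝ (EuclideanSpace ℝ (Fin m × Fin m))) :
    ∑ z, ‖V.starProjection (row R z)‖ ^ 2 ≤
      Real.sqrt (8 * Module.finrank ℝ V) * (m : ℝ) ^ 2 := by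
  classical
  set v : Fin (Module.finrank ℝ V) → EuclideanSpace ℝ (Fin m × Fin m) := fun q =>
    ((stdOrthonormalBasis ℝ V q : V) : EuclideanSpace ℝ (Fin m × Fin m)) with hv
  have hon : Orthonormal ℝ v := by
    have h1 := (stdOrthonormalBasis ℝ V).orthonormal
    exact h1.comp_linearIsometry V.subtypeₗᵢ
  have h1 : ∑ z, ‖V.starProjection (row R z)‖ ^ 2 = ∑ q, inner ℝ (v q) (gram R (v q)) := by
    simp only [proj_norm_sq]
    rw [Finset.sum_comm]
    exact Finset.sum_congr rfl fun q _ => sum_inner_sq R (v q)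
  have h2 : ∀ q, inner ℝ (v q) (gram R (v q)) ≤ ‖gram R (v q)‖ := by
    intro q
    refine (real_inner_le_norm _ _).trans ?_
    rw [hon.1 q, one_mul]
  have h3 : ∑ q, ‖gram R (v q)‖ ^ 2 ≤ 8 * (m : ℝ) ^ 4 := by
    calc ∑ q, ‖gram R (v q)‖ ^ 2 = ∑ q, ∑ p, inner ℝ (v q) (grow R p) ^ 2 := by
          refine Finset.sum_congr rfl fun q _ => ?_
          rw [norm_sq_eq]
          exact Finset.sum_congr rfl fun p _ => by rw [grow_inner]
      _ = ∑ p, ∑ q, inner ℝ (v q) (grow R p) ^ 2 := Finset.sum_comm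
      _ ≤ ∑ p, ‖grow R p‖ ^ 2 := by
          refine Finset.sum_le_sum fun p _ => ?_
          have h := hon.sum_inner_products_le (grow R p) (s := Finset.univ)
          simpa [Real.norm_eq_abs, sq_abs] using h
      _ = m * ∑ j, ∑ j', (∑ i, R (i, j) * R (i, j')) ^ 2 := sum_grow_norm R
      _ ≤ m * (8 * (m : ℝ) ^ 3) := mul_le_mul_of_nonneg_left hR (Nat.cast_nonneg _)
      _ = 8 * (m : ℝ) ^ 4 := by ring
  rw [h1]
  have h4 : (∑ q, ‖gram R (v q)‖) ^ 2 ≤ (Module.finrank ℝ V : ℝ) * (8 * (m : ℝ) ^ 4) := by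
    have h5 := sq_sum_le_card_mul_sum_sq (s := (Finset.univ : Finset (Fin (Module.finrank ℝ V))))
      (f := fun q => ‖gram R (v q)‖)
    rw [Finset.card_univ, Fintype.card_fin] at h5
    exact h5.trans (mul_le_mul_of_nonneg_left h3 (Nat.cast_nonneg _))
  calc ∑ q, inner ℝ (v q) (gram R (v q)) ≤ ∑ q, ‖gram R (v q)‖ := Finset.sum_le_sum fun q _ => h2 q
    _ ≤ Real.sqrt ((Module.finrank ℝ V : ℝ) * (8 * (m : ℝ) ^ 4)) := Real.le_sqrt_of_sq_le h4
    _ = Real.sqrt (8 * Module.finrank ℝ V) * (m : ℝ) ^ 2 := by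
        have e : (Module.finrank ℝ V : ℝ) * (8 * (m : ℝ) ^ 4) =
            (8 * Module.finrank ℝ V) * ((m : ℝ) ^ 2) ^ 2 := by ring
        rw [e, Real.sqrt_mul (by positivity), Real.sqrt_sq (by positivity)]

/-- **Spread.** -/
theorem spread (hm : 1 ≤ m) {θ : ℝ} (hθ : 0 < θ) (ε : Fin m × Fin m → Bool)
    (hG : ∑ j, ∑ j', (∑ i, sg ε (i, j) * sg ε (i, j')) ^ 2 ≤ 8 * (m : ℝ) ^ 3)
    (N : EuclideanSpace ℝ (Fin m × Fin m)) (hN : ‖N‖ ^ 2 ≤ θ * (m : ℝ) ^ 2 / 8)
    (V : Submodule ℝ (EuclideanSpace ℝ (Fin m × Fin m)))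
    (hV : (Module.finrank ℝ V : ℝ) ≤ θ ^ 2 * (m : ℝ) ^ 2 / 32)
    (Ω : Finset (Fin m × Fin m)) (hΩ : θ * (m : ℝ) ^ 2 ≤ Ω.card) :
    ∃ z ∈ Ω, Real.sqrt (θ * m / 8) ≤
      ‖row (sgv ε - N) z - V.starProjection (row (sgv ε - N) z)‖ := by
  classical
  have hm0 : (0 : ℝ) < m := by exact_mod_cast hm
  set R := sgv ε with hR
  have hRrow : ∀ z, ‖row R z‖ ^ 2 = m := by
    intro z
    rw [row_norm]
    have : ∀ k, R (z.1, k) ^ 2 = 1 := by
      intro k
      have h1 : R (z.1, k) = sg ε (z.1, k) := rfl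
      rw [h1, pow_two, sg_sq]
    simp [this]
  have hpy : ∀ x : EuclideanSpace ℝ (Fin m × Fin m),
      ‖x - V.starProjection x‖ ^ 2 = ‖x‖ ^ 2 - ‖V.starProjection x‖ ^ 2 := by
    intro x
    have h1 : x = V.starProjection x + (x - V.starProjection x) := by abel
    have h2 : inner ℝ (V.starProjection x) (x - V.starProjection x) = 0 :=
      (Submodule.mem_orthogonal V _).mp (V.sub_starProjection_mem_orthogonal x) _
        (Submodule.starProjection_apply_mem V x)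
    have h3 := norm_add_sq_eq_norm_sq_add_norm_sq_of_inner_eq_zero _ _ h2
    rw [← h1] at h3
    nlinarith
  have hlow : ∀ z, (m : ℝ) / 2 - ‖V.starProjection (row R z)‖ ^ 2 / 2 - ‖row N z‖ ^ 2 ≤
      ‖row (R - N) z - V.starProjection (row (R - N) z)‖ ^ 2 := by
    intro z
    rw [row_sub, map_sub]
    set x := row R z
    set y := row N z
    have e : x - y - (V.starProjection x - V.starProjection y) =
        (x - V.starProjection x) - (y - V.starProjection y) := by abel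
    rw [e]
    have h1 := hpy x
    have h2 := hpy y
    rw [hRrow z] at h1
    have h3 : ‖y - V.starProjection y‖ ^ 2 ≤ ‖y‖ ^ 2 := by
      rw [h2]; nlinarith [sq_nonneg ‖V.starProjection y‖]
    have h4 := norm_sub_norm_le (x - V.starProjection x) (y - V.starProjection y)
    have h5 := norm_nonneg ((x - V.starProjection x) - (y - V.starProjection y))
    have h6 := norm_nonneg (x - V.starProjection x)
    have h7 := norm_nonneg (y - V.starProjection y)
    have h8 : ‖x - V.starProjection x‖ ^ 2 / 2 - ‖y - V.starProjection y‖ ^ 2 ≤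
        ‖(x - V.starProjection x) - (y - V.starProjection y)‖ ^ 2 := by
      nlinarith [sq_nonneg (‖(x - V.starProjection x) - (y - V.starProjection y)‖ -
        ‖y - V.starProjection y‖), sq_nonneg (‖x - V.starProjection x‖ - 2 *
          ‖y - V.starProjection y‖)]
    linarith
  by_contra hcon
  push Not at hcon
  have hup : ∀ z ∈ Ω, ‖row (R - N) z - V.starProjection (row (R - N) z)‖ ^ 2 < θ * m / 8 := by
    intro z hz
    have h1 := hcon z hz
    have h2 : 0 ≤ θ * m / 8 := by positivity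
    rw [← Real.sq_sqrt h2]
    have h3 := norm_nonneg (row (R - N) z - V.starProjection (row (R - N) z))
    gcongr
  have hsum1 : ∑ z ∈ Ω, ((m : ℝ) / 2 - ‖V.starProjection (row R z)‖ ^ 2 / 2 - ‖row N z‖ ^ 2) ≤
      Ω.card * (θ * m / 8) := by
    calc _ ≤ ∑ _z ∈ Ω, θ * m / 8 := Finset.sum_le_sum fun z hz => (hlow z).trans (hup z hz).le
      _ = _ := by rw [Finset.sum_const, nsmul_eq_mul]
  have hΩne : 0 < (Ω.card : ℝ) := by
    have : 0 < θ * (m : ℝ) ^ 2 := by positivity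
    linarith
  -- strictness
  have hsum1' : ∑ z ∈ Ω, ((m : ℝ) / 2 - ‖V.starProjection (row R z)‖ ^ 2 / 2 - ‖row N z‖ ^ 2) <
      Ω.card * (θ * m / 8) := by
    have hne : Ω.Nonempty := by
      rw [← Finset.card_pos]; exact_mod_cast hΩne
    calc _ < ∑ _z ∈ Ω, θ * m / 8 :=
          Finset.sum_lt_sum_of_nonempty hne fun z hz => (hlow z).trans_lt (hup z hz)
      _ = _ := by rw [Finset.sum_const, nsmul_eq_mul]
  have hcard : (Ω.card : ℝ) ≤ (m : ℝ) ^ 2 := by
    have h1 := Finset.card_le_univ Ω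
    rw [Fintype.card_prod, Fintype.card_fin] at h1
    calc (Ω.card : ℝ) ≤ ((m * m : ℕ) : ℝ) := by exact_mod_cast h1
      _ = (m : ℝ) ^ 2 := by push_cast; ring
  rw [Finset.sum_sub_distrib, Finset.sum_sub_distrib, Finset.sum_const, nsmul_eq_mul,
    ← Finset.sum_div] at hsum1'
  have hA : ∑ z ∈ Ω, ‖V.starProjection (row R z)‖ ^ 2 ≤ θ * (m : ℝ) ^ 3 / 2 := by
    calc ∑ z ∈ Ω, ‖V.starProjection (row R z)‖ ^ 2 ≤ ∑ z, ‖V.starProjection (row R z)‖ ^ 2 :=
          Finset.sum_le_sum_of_subset_of_nonneg (Finset.subset_univ _) fun _ _ _ => sq_nonneg _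
      _ ≤ Real.sqrt (8 * Module.finrank ℝ V) * (m : ℝ) ^ 2 := sum_proj_row R hG V
      _ ≤ (θ * m / 2) * (m : ℝ) ^ 2 := by
          refine mul_le_mul_of_nonneg_right ?_ (by positivity)
          rw [← Real.sqrt_sq (by positivity : (0 : ℝ) ≤ θ * m / 2)]
          refine Real.sqrt_le_sqrt ?_
          nlinarith
      _ = θ * (m : ℝ) ^ 3 / 2 := by ring
  have hB : ∑ z ∈ Ω, ‖row N z‖ ^ 2 ≤ θ * (m : ℝ) ^ 3 / 8 := by
    calc ∑ z ∈ Ω, ‖row N z‖ ^ 2 ≤ ∑ z, ‖row N z‖ ^ 2 :=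
          Finset.sum_le_sum_of_subset_of_nonneg (Finset.subset_univ _) fun _ _ _ => sq_nonneg _
      _ = m * ‖N‖ ^ 2 := sum_row_norm N
      _ ≤ m * (θ * (m : ℝ) ^ 2 / 8) := by gcongr
      _ = _ := by ring
  -- `|Ω| m / 2 - θ m³ / 4 - θ m³ / 8 < |Ω| θ m / 8`
  have hθ1 : θ ≤ 1 := by
    have h1 : θ * (m : ℝ) ^ 2 ≤ (m : ℝ) ^ 2 := hΩ.trans hcard
    have h2 : 0 < (m : ℝ) ^ 2 := by positivity
    by_contra hc
    push Not at hc
    nlinarith
  have h1 : (Ω.card : ℝ) * (m / 2) < Ω.card * (θ * m / 8) + θ * (m : ℝ) ^ 3 * (3 / 8) := by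
    linarith
  have h2 : (Ω.card : ℝ) * (θ * m / 8) ≤ Ω.card * (m / 8) := by
    refine mul_le_mul_of_nonneg_left ?_ hΩne.le
    nlinarith
  have h3 : θ * (m : ℝ) ^ 3 * (3 / 8) ≤ Ω.card * (m * (3 / 8)) := by
    calc θ * (m : ℝ) ^ 3 * (3 / 8) = (θ * (m : ℝ) ^ 2) * ((m : ℝ) * (3 / 8)) := by ring
      _ ≤ (Ω.card : ℝ) * ((m : ℝ) * (3 / 8)) :=
          mul_le_mul_of_nonneg_right hΩ (by positivity)
  linarith

end Pool.Agent.Y538.Bd
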