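import Pool.Agent.Y538.Bd.Vol
import Pool.Agent.Y538.Bd.Spread

/-!
# Bounded second order computations of many entries of a matrix product
-/

set_option autoImplicit false
set_option linter.unusedSectionVars false

namespace Pool.Agent.Y538.Bd

open Finset

section seq

variable {k : ℕ}

theorem bd_seq {S₀ : Set (Fin k → ℝ)} {D₀ C : ℝ} (h0 : Bd S₀ D₀) (hD₀ : 0 ≤ D₀) (hC : 1 ≤ C)
    (x : ℕ → Fin k → ℝ) (n : ℕ)
    (h : ∀ j < n, ∃ (ι : Type) (s : Finset ι) (c : ι → ℝ) (y : ι → Fin k → ℝ),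
      x j = ∑ t ∈ s, c t • y t ∧ (∀ t ∈ s, y t ∈ S₀ ∨ ∃ i < j, y t = x i) ∧
        ∑ t ∈ s, |c t| ≤ C) :
    Bd (S₀ ∪ {v | ∃ i < n, v = x i}) (C ^ n * D₀) := by
  induction n with
  | zero =>
    refine h0.mono ?_ (by simp)
    rintro v (hv | ⟨i, hi, -⟩)
    · exact hv
    · omega
  | succ n ih =>
    have h1 := ih fun j hj => h j (by omega)
    obtain ⟨ι, s, c, y, hx, hy, hc⟩ := h n (Nat.lt_succ_self n)
    have h2 := h1.insert (by positivity) hC s c y (fun t ht => ?_) hc
    · refine h2.mono ?_ (le_of_eq (by ring))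
      rintro v (hv | ⟨i, hi, rfl⟩)
      · exact Or.inr (Or.inl hv)
      · rcases Nat.lt_succ_iff_lt_or_eq.mp hi with hi | rfl
        · exact Or.inr (Or.inr ⟨i, hi, rfl⟩)
        · exact Or.inl hx
    · rcases hy t ht with h3 | ⟨i, hi, h3⟩
      · exact Or.inl h3
      · exact Or.inr ⟨i, hi, h3⟩

variable {E : Type*} [NormedAddCommGroup E] [InnerProductSpace ℝ E]

/-- coordinates with respect to a frame -/
noncomputable def pr (e : Fin k → E) (v : E) : Fin k → ℝ := fun i => inner ℝ (e i) v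

lemma pr_sum (e : Fin k → E) {ι : Type} (s : Finset ι) (c : ι → ℝ) (v : ι → E) :
    pr e (∑ t ∈ s, c t • v t) = ∑ t ∈ s, c t • pr e (v t) := by
  funext i
  simp only [pr, inner_sum, inner_smul_right, Finset.sum_apply, Pi.smul_apply, smul_eq_mul]

lemma pr_zero (e : Fin k → E) : pr e 0 = 0 := by
  funext i; simp [pr]

lemma pr_perp {e : Fin k → E} {V : Submodule ℝ E} (he : ∀ i, e i ∈ Vᗮ) {v : E} (hv : v ∈ V) :
    pr e v = 0 := by
  funext i
  have h := (Submodule.mem_orthogonal V _).mp (he i) v hv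
  simp only [pr, Pi.zero_apply]
  rw [real_inner_comm]
  exact h

lemma bd_base {e : Fin k → E} (he : Orthonormal ℝ e) (K : ℝ) :
    Bd {w | ∃ v : E, ‖v‖ ≤ K ∧ w = pr e v} (K ^ k) := by
  intro w hw
  choose v hv hwv using hw
  have h := frame_det_le he hv
  have e1 : (Matrix.of fun i j => w j i) = (Matrix.of fun i j => inner ℝ (e i) (v j)) := by
    ext i j
    simp only [Matrix.of_apply, hwv j, pr]
  rw [e1]
  exact h

end seq

/-- Second order data of a network with inputs in the space of pairs of `m × m` matrices at a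
point: gradients `al`, `be` with respect to the first and second matrix, and mixed second
derivatives `ve R` in the direction `R` (for the first matrix), of the results of the gates; the
same for the inputs of the gates. The gates in `W` are arbitrary, the others are bounded. -/
structure Jets (m a L : ℕ) (K : ℝ) (W : Finset ℕ) where
  al : ℕ → EuclideanSpace ℝ (Fin m × Fin m)
  be : ℕ → EuclideanSpace ℝ (Fin m × Fin m)
  ve : EuclideanSpace ℝ (Fin m × Fin m) → ℕ → EuclideanSpace ℝ (Fin m × Fin m)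
  A : ℕ → Fin a → EuclideanSpace ℝ (Fin m × Fin m)
  B : ℕ → Fin a → EuclideanSpace ℝ (Fin m × Fin m)
  V : EuclideanSpace ℝ (Fin m × Fin m) → ℕ → Fin a → EuclideanSpace ℝ (Fin m × Fin m)
  c : ℕ → Fin a → ℝ
  h : ℕ → Fin a → Fin a → ℝ
  hc : ∀ l < L, l ∉ W → ∑ i, |c l i| ≤ K
  hh : ∀ l < L, l ∉ W → ∑ i, ∑ j, |h l i j| ≤ K
  hal : ∀ l < L, l ∉ W → al l = ∑ i, c l i • A l i
  hbe : ∀ l < L, l ∉ W → be l = ∑ i, c l i • B l i
  hve : ∀ l < L, l ∉ W → ∀ R, ve R l = ∑ i, c l i • V R l i +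
    ∑ i, ∑ j, (h l i j * inner ℝ (A l j) R) • B l i
  hin : ∀ l < L, l ∉ W → ∀ i, (∃ s < l, A l i = al s ∧ B l i = be s ∧ ∀ R, V R l i = ve R s) ∨
    (‖A l i‖ ≤ K ∧ ‖B l i‖ ≤ K ∧ ∀ R, V R l i = 0)

namespace Jets

variable {m a L : ℕ} {K : ℝ} {W : Finset ℕ} (J : Jets m a L K W)

lemma finrank_span_image {E : Type*} [AddCommGroup E] [Module ℝ E] (W : Finset ℕ) (f : ℕ → E) :
    Module.finrank ℝ (Submodule.span ℝ (f '' (W : Set ℕ))) ≤ W.card := by
  classical
  have h1 : (f '' (W : Set ℕ)) = ((W.image f : Finset E) : Set E) := by simp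
  rw [h1]
  exact (finrank_span_finset_le_card _).trans Finset.card_image_le

/-- The gradients with respect to the first matrix are small modulo a small subspace. -/
theorem small_gradients (hK : 1 ≤ K) {r N : ℕ} (hr : 1 ≤ r) (hN : L ≤ N * r) :
    ∃ S : Submodule ℝ (EuclideanSpace ℝ (Fin m × Fin m)),
      Module.finrank ℝ S ≤ W.card + r ∧
      ∀ s < L, ‖J.al s - S.starProjection (J.al s)‖ ≤ 2 * K ^ (N + 1) := by
  classical
  have hK0 : 0 < K := by linarith
  set V₀ := Submodule.span ℝ (J.al '' (W : Set ℕ)) with hV₀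
  have hdim : Module.finrank ℝ V₀ ≤ W.card := finrank_span_image W J.al
  by_contra hcon
  push Not at hcon
  obtain ⟨e, s, he, heV, hs, hdet⟩ := chain V₀ {v | ∃ i < L, v = J.al i}
    (τ := 2 * K ^ (N + 1)) (by positivity) r (fun V _ hVd => by
      obtain ⟨i, hi, hlt⟩ := hcon V (by omega)
      exact ⟨J.al i, ⟨i, hi, rfl⟩, hlt.le⟩)
  have hb := bd_seq (bd_base he K) (by positivity) hK (fun j => pr e (J.al j)) L (fun j hj => by
    by_cases hW : j ∈ W
    · refine ⟨Unit, ∅, fun _ => 0, fun _ => 0, ?_, by simp, by simpa using hK0.le⟩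
      rw [Finset.sum_empty]
      exact pr_perp heV (Submodule.subset_span ⟨j, hW, rfl⟩)
    · refine ⟨Fin a, Finset.univ, J.c j, fun i => pr e (J.A j i), ?_, ?_, J.hc j hj hW⟩
      · rw [J.hal j hj hW, pr_sum]
      · intro i _
        rcases J.hin j hj hW i with ⟨s, hs, h1, -⟩ | ⟨h1, -⟩
        · exact Or.inr ⟨s, hs, by beta_reduce; rw [h1]⟩
        · exact Or.inl ⟨_, h1, rfl⟩)
  have h1 := hb (fun j => pr e (s j)) (fun j => by
    obtain ⟨i, hi, h2⟩ := hs j
    exact Or.inr ⟨i, hi, by rw [h2]⟩)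
  have h2 : (Matrix.of fun i j => pr e (s j) i) = (Matrix.of fun i j => inner ℝ (e i) (s j)) := rfl
  rw [h2] at h1
  have h3 := hdet.trans h1
  have h4 : K ^ L ≤ K ^ (N * r) := pow_le_pow_right₀ hK hN
  have h5 : (2 * K ^ (N + 1)) ^ r = 2 ^ r * (K ^ (N * r) * K ^ r) := by
    rw [mul_pow, ← pow_mul, ← pow_add]
    congr 2
    ring
  rw [h5] at h3
  have h6 : (2 : ℝ) ≤ 2 ^ r := by
    calc (2 : ℝ) = 2 ^ 1 := by norm_num
      _ ≤ 2 ^ r := pow_le_pow_right₀ (by norm_num) hr
  have h7 : 0 < K ^ r := by positivity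
  have h8 : 0 < K ^ (N * r) := by positivity
  have h9 : K ^ L * K ^ r ≤ K ^ (N * r) * K ^ r := mul_le_mul_of_nonneg_right h4 h7.le
  have h10 : 0 < K ^ (N * r) * K ^ r := by positivity
  nlinarith

/-- The volume bound for the mixed derivatives. -/
theorem volume (hK : 1 ≤ K) (R : EuclideanSpace ℝ (Fin m × Fin m)) {ρ : ℝ} (hρ : 0 < ρ)
    (hR : ∀ l < L, l ∉ W → ∀ i, |inner ℝ (J.A l i) R| ≤ ρ) {k : ℕ}
    {e : Fin k → EuclideanSpace ℝ (Fin m × Fin m)} (he : Orthonormal ℝ e)
    (hW : ∀ w ∈ W, pr e (J.be w) = 0 ∧ pr e (J.ve R w) = 0)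
    (s : Fin k → EuclideanSpace ℝ (Fin m × Fin m))
    (hs : ∀ j, s j = 0 ∨ ∃ i < L, s j = J.ve R i) :
    |(Matrix.of fun i j => inner ℝ (e i) (s j)).det| ≤ ρ ^ k * ((2 * K) ^ (2 * L) * K ^ k) := by
  classical
  have hK0 : 0 < K := by linarith
  let x : ℕ → Fin k → ℝ := fun n =>
    if n % 2 = 0 then pr e (J.be (n / 2)) else pr e (ρ⁻¹ • J.ve R (n / 2))
  have hx0 : ∀ l, x (2 * l) = pr e (J.be l) := by
    intro l
    simp only [x]
    rw [if_pos (by omega)]
    congr 2; omega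
  have hx1 : ∀ l, x (2 * l + 1) = pr e (ρ⁻¹ • J.ve R l) := by
    intro l
    simp only [x]
    rw [if_neg (by omega)]
    congr 3; omega
  have hzero : (0 : Fin k → ℝ) ∈ {w | ∃ v : EuclideanSpace ℝ (Fin m × Fin m), ‖v‖ ≤ K ∧
      w = pr e v} := ⟨0, by simpa using hK0.le, (pr_zero e).symm⟩
  have hb := bd_seq (bd_base he K) (by positivity) (by linarith : (1 : ℝ) ≤ 2 * K) x (2 * L)
    (fun n hn => by
    obtain ⟨l, hl⟩ : ∃ l, n = 2 * l ∨ n = 2 * l + 1 := ⟨n / 2, by omega⟩
    have hlL : l < L := by omega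
    by_cases hlW : l ∈ W
    · refine ⟨Unit, ∅, fun _ => 0, fun _ => 0, ?_, by simp, by simpa using hK0.le⟩
      rw [Finset.sum_empty]
      rcases hl with rfl | rfl
      · rw [hx0]; exact (hW l hlW).1
      · rw [hx1]
        have h1 : pr e (ρ⁻¹ • J.ve R l) = ρ⁻¹ • pr e (J.ve R l) := by
          have := pr_sum e {()} (fun _ => ρ⁻¹) (fun _ => J.ve R l)
          simpa using this
        rw [h1, (hW l hlW).2, smul_zero]
    · rcases hl with rfl | rfl
      · refine ⟨Fin a, Finset.univ, J.c l, fun i => pr e (J.B l i), ?_, ?_,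
          (J.hc l hlL hlW).trans (by linarith)⟩
        · rw [hx0, J.hbe l hlL hlW, pr_sum]
        · intro i _
          rcases J.hin l hlL hlW i with ⟨s, hs, -, h1, -⟩ | ⟨-, h1, -⟩
          · exact Or.inr ⟨2 * s, by omega, by beta_reduce; rw [hx0, h1]⟩
          · exact Or.inl ⟨_, h1, rfl⟩
      · refine ⟨Fin a ⊕ (Fin a × Fin a), Finset.univ,
          Sum.elim (J.c l) (fun t => J.h l t.1 t.2 * inner ℝ (J.A l t.2) R / ρ),
          Sum.elim (fun i => pr e (ρ⁻¹ • J.V R l i)) (fun t => pr e (J.B l t.1)), ?_, ?_, ?_⟩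
        · rw [hx1, J.hve l hlL hlW R, Fintype.sum_sum_type]
          simp only [Sum.elim_inl, Sum.elim_inr]
          have e1 : ρ⁻¹ • (∑ i, J.c l i • J.V R l i +
              ∑ i, ∑ j, (J.h l i j * inner ℝ (J.A l j) R) • J.B l i) =
              ∑ i, J.c l i • (ρ⁻¹ • J.V R l i) +
              ∑ t : Fin a × Fin a, (J.h l t.1 t.2 * inner ℝ (J.A l t.2) R / ρ) • J.B l t.1 := by
            rw [smul_add, Finset.smul_sum, Finset.smul_sum, Fintype.sum_prod_type]
            congr 1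
            · exact Finset.sum_congr rfl fun i _ => by rw [smul_comm]
            · refine Finset.sum_congr rfl fun i _ => ?_
              rw [Finset.smul_sum]
              refine Finset.sum_congr rfl fun j _ => ?_
              rw [smul_smul]
              congr 1
              ring
          have e2 : pr e (∑ i, J.c l i • (ρ⁻¹ • J.V R l i) +
              ∑ t : Fin a × Fin a, (J.h l t.1 t.2 * inner ℝ (J.A l t.2) R / ρ) • J.B l t.1) =
              pr e (∑ i, J.c l i • (ρ⁻¹ • J.V R l i)) + pr e (∑ t : Fin a × Fin a,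
                (J.h l t.1 t.2 * inner ℝ (J.A l t.2) R / ρ) • J.B l t.1) := by
            funext q
            simp only [pr, inner_add_right, Pi.add_apply]
          rw [e1, e2, pr_sum, pr_sum]
        · intro t _
          rcases t with i | ⟨i, j⟩
          · simp only [Sum.elim_inl]
            rcases J.hin l hlL hlW i with ⟨s, hs, -, -, h1⟩ | ⟨-, -, h1⟩
            · exact Or.inr ⟨2 * s + 1, by omega, by rw [hx1, h1]⟩
            · refine Or.inl ?_
              rw [h1, smul_zero, pr_zero]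
              exact hzero
          · simp only [Sum.elim_inr]
            rcases J.hin l hlL hlW i with ⟨s, hs, -, h1, -⟩ | ⟨-, h1, -⟩
            · exact Or.inr ⟨2 * s, by omega, by rw [hx0, h1]⟩
            · exact Or.inl ⟨_, h1, rfl⟩
        · rw [Fintype.sum_sum_type]
          simp only [Sum.elim_inl, Sum.elim_inr]
          rw [Fintype.sum_prod_type]
          have h1 : ∑ i, ∑ j, |J.h l i j * inner ℝ (J.A l j) R / ρ| ≤ ∑ i, ∑ j, |J.h l i j| := by
            refine Finset.sum_le_sum fun i _ => Finset.sum_le_sum fun j _ => ?_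
            rw [abs_div, abs_mul, abs_of_pos hρ, div_le_iff₀ hρ]
            exact mul_le_mul_of_nonneg_left (hR l hlL hlW j) (abs_nonneg _)
          have h2 := J.hh l hlL hlW
          have h3 := J.hc l hlL hlW
          linarith)
  have h1 := hb (fun j => pr e (ρ⁻¹ • s j)) (fun j => by
    rcases hs j with h2 | ⟨i, hi, h2⟩
    · refine Or.inl ?_
      rw [h2, smul_zero, pr_zero]
      exact hzero
    · exact Or.inr ⟨2 * i + 1, by omega, by rw [hx1, h2]⟩)
  have h2 : (Matrix.of fun i j => pr e (ρ⁻¹ • s j) i) =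
      ρ⁻¹ • (Matrix.of fun i j => inner ℝ (e i) (s j)) := by
    ext i j
    simp only [Matrix.of_apply, Matrix.smul_apply, pr, inner_smul_right, smul_eq_mul]
  rw [h2, Matrix.det_smul, Fintype.card_fin, abs_mul, abs_of_pos (by positivity)] at h1
  calc |(Matrix.of fun i j => inner ℝ (e i) (s j)).det| =
      ρ ^ k * (ρ⁻¹ ^ k * |(Matrix.of fun i j => inner ℝ (e i) (s j)).det|) := by
        rw [← mul_assoc, ← mul_pow, mul_inv_cancel₀ hρ.ne', one_pow, one_mul]
    _ ≤ _ := mul_le_mul_of_nonneg_left h1 (by positivity)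

/-- **The main inequality.** -/
theorem core (hm : 1 ≤ m) (hK : 1 ≤ K) {θ M : ℝ} (hθ : 0 < θ) {r k N : ℕ} (hr : 1 ≤ r)
    (hN : L ≤ N * r) (hM : 1 ≤ M) (hMa : (L : ℝ) * a ≤ M) (Ω : Finset (Fin m × Fin m))
    (hΩ : θ * (m : ℝ) ^ 2 ≤ Ω.card)
    (hD : 4 * ((W.card : ℝ) + r) ≤ θ * (m : ℝ) ^ 2 / 8)
    (hk : 2 * (W.card : ℝ) + k ≤ θ ^ 2 * (m : ℝ) ^ 2 / 32)
    (hout : ∀ z ∈ Ω, (∃ s < L, ∀ R, J.ve R s = row R z) ∨ ∀ R, row R z = 0) :
    Real.sqrt (θ * m / 8) ^ k ≤
      (2 * K ^ (N + 1) * Real.log (8 * M * Real.exp (1 / 2))) ^ k *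
        ((2 * K) ^ (2 * L) * K ^ k) := by
  classical
  have hm0 : (0 : ℝ) < m := by exact_mod_cast hm
  have hK0 : 0 < K := by linarith
  obtain ⟨S, hSd, hS⟩ := J.small_gradients hK hr hN
  set B₀ : ℝ := 2 * K ^ (N + 1) with hB₀
  have hB₀K : K ≤ B₀ := by
    have h1 : K ≤ K ^ (N + 1) := le_self_pow₀ hK (by omega)
    have h2 : 0 < K ^ (N + 1) := by positivity
    rw [hB₀]; linarith
  have hB₀0 : 0 < B₀ := by positivity
  have hproj : ∀ x : EuclideanSpace ℝ (Fin m × Fin m), ‖x - S.starProjection x‖ ≤ ‖x‖ := by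
    intro x
    have h1 : x = S.starProjection x + (x - S.starProjection x) := by abel
    have h2 : inner ℝ (S.starProjection x) (x - S.starProjection x) = 0 :=
      (Submodule.mem_orthogonal S _).mp (S.sub_starProjection_mem_orthogonal x) _
        (Submodule.starProjection_apply_mem S x)
    have h3 := norm_add_sq_eq_norm_sq_add_norm_sq_of_inner_eq_zero _ _ h2
    rw [← h1] at h3
    have h4 : ‖x - S.starProjection x‖ ^ 2 ≤ ‖x‖ ^ 2 := by
      nlinarith [mul_self_nonneg ‖S.starProjection x‖]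
    exact (pow_le_pow_iff_left₀ (norm_nonneg _) (norm_nonneg _) two_ne_zero).mp h4
  obtain ⟨ε, h1, h2, h3⟩ := exists_signs hm S (s := (W.card : ℝ) + r)
    (by positivity) (by exact_mod_cast hSd)
    (((range L).filter fun l => l ∉ W) ×ˢ (Finset.univ : Finset (Fin a)))
    (fun x => J.A x.1 x.2 - S.starProjection (J.A x.1 x.2)) hB₀0 (by linarith : 0 < M)
    (fun x hx => by
      obtain ⟨h4, h5⟩ := Finset.mem_filter.mp (Finset.mem_product.mp hx).1
      rw [Finset.mem_range] at h4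
      rcases J.hin x.1 h4 h5 x.2 with ⟨s, hs, h6, -⟩ | ⟨h6, -⟩
      · rw [h6]; exact hS s (hs.trans h4)
      · exact (hproj _).trans (h6.trans hB₀K))
    (by
      rw [Finset.card_product, Finset.card_univ, Fintype.card_fin]
      have h4 : ((range L).filter fun l => l ∉ W).card ≤ L := by
        refine (Finset.card_filter_le _ _).trans ?_
        rw [Finset.card_range]
      calc ((((range L).filter fun l => l ∉ W).card * a : ℕ) : ℝ) ≤ ((L * a : ℕ) : ℝ) := by
            exact_mod_cast Nat.mul_le_mul_right a h4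
        _ = (L : ℝ) * a := by push_cast; ring
        _ ≤ M := hMa)
  set ρ : ℝ := B₀ * Real.log (8 * M * Real.exp (1 / 2)) with hρ
  have hlog : 0 < Real.log (8 * M * Real.exp (1 / 2)) := by
    refine Real.log_pos ?_
    have : (1 : ℝ) ≤ Real.exp (1 / 2) := Real.one_le_exp (by norm_num)
    nlinarith
  have hρ0 : 0 < ρ := by positivity
  set N' := S.starProjection (sgv ε) with hN'
  set R := sgv ε - N' with hR
  have hAR : ∀ l < L, l ∉ W → ∀ i, |inner ℝ (J.A l i) R| ≤ ρ := by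
    intro l hl hlW i
    have h4 := h3 (l, i) (Finset.mem_product.mpr
      ⟨Finset.mem_filter.mpr ⟨Finset.mem_range.mpr hl, hlW⟩, Finset.mem_univ _⟩)
    have h5 : inner ℝ (J.A l i) R = inner ℝ (J.A l i - S.starProjection (J.A l i)) (sgv ε) := by
      rw [hR, hN', inner_sub_right, inner_sub_left]
      congr 1
      exact (Submodule.inner_starProjection_left_eq_right S _ _).symm
    rw [h5]
    exact h4
  set V₀ := Submodule.span ℝ (J.be '' (W : Set ℕ)) ⊔ Submodule.span ℝ (J.ve R '' (W : Set ℕ))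
    with hV₀
  have hV₀d : Module.finrank ℝ V₀ ≤ 2 * W.card := by
    refine (Submodule.finrank_add_le_finrank_add_finrank _ _).trans ?_
    have := finrank_span_image W J.be
    have := finrank_span_image W (J.ve R)
    omega
  have hNn : ‖N'‖ ^ 2 ≤ θ * (m : ℝ) ^ 2 / 8 := h1.trans hD
  obtain ⟨e, s, he, heV, hs, hdet⟩ := chain V₀ {v | ∃ z ∈ Ω, v = row R z}
    (τ := Real.sqrt (θ * m / 8)) (Real.sqrt_pos.mpr (by positivity)) k (fun V _ hVd => by
      have hVd' : (Module.finrank ℝ V : ℝ) ≤ θ ^ 2 * (m : ℝ) ^ 2 / 32 := by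
        refine le_trans ?_ hk
        have : Module.finrank ℝ V ≤ 2 * W.card + k := by omega
        exact_mod_cast this
      obtain ⟨z, hz, hlt⟩ := spread hm hθ ε h2 N' hNn V hVd' Ω hΩ
      exact ⟨_, ⟨z, hz, rfl⟩, hlt⟩)
  refine hdet.trans (J.volume hK R hρ0 hAR he (fun w hw => ⟨?_, ?_⟩) s fun j => ?_)
  · exact pr_perp heV (Submodule.mem_sup_left (Submodule.subset_span ⟨w, hw, rfl⟩))
  · exact pr_perp heV (Submodule.mem_sup_right (Submodule.subset_span ⟨w, hw, rfl⟩))
  · obtain ⟨z, hz, hsz⟩ := hs j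
    rcases hout z hz with ⟨i, hi, h4⟩ | h4
    · exact Or.inr ⟨i, hi, by rw [h4, hsz]⟩
    · exact Or.inl (by rw [hsz, h4])

end Jets

end Pool.Agent.Y538.Bd
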