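import Pool.Agent.Y538.Net.Defs

/-!
# Networks of smooth gates without free linear operations: definitions
-/

set_option autoImplicit false

namespace Pool.Agent.Y538.Bd

open Pool.Agent.Y538.Net (Pairs)

/-- The `i`-th partial derivative. -/
noncomputable def pd {a : ℕ} (φ : (Fin a → ℝ) → ℝ) (i : Fin a) (y : Fin a → ℝ) : ℝ :=
  fderiv ℝ φ y (Pi.single i 1)

/-- The matrix with the entry `1` at the position `p` and zeros elsewhere. -/
def unit {m : ℕ} (p : Fin m × Fin m) : Fin m → Fin m → ℝ :=
  fun k l => if k = p.1 ∧ l = p.2 then 1 else 0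

/-- The square of the Euclidean norm of the gradient of `f` at `x`. -/
noncomputable def gradSq {m : ℕ} (f : Pairs ℝ m → ℝ) (x : Pairs ℝ m) : ℝ :=
  ∑ p, ((fderiv ℝ f x (unit p, 0)) ^ 2 + (fderiv ℝ f x (0, unit p)) ^ 2)

/-- On `D` the function `f` is a function of the first matrix alone or of the second matrix alone,
twice continuously differentiable at the matrices that occur. -/
def OneMatrix {m : ℕ} (D : Set (Pairs ℝ m)) (f : Pairs ℝ m → ℝ) : Prop :=
  (∃ ψ : (Fin m → Fin m → ℝ) → ℝ, (∀ x ∈ D, ContDiffAt ℝ 2 ψ x.1) ∧ f = fun x => ψ x.1) ∨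
    ∃ ψ : (Fin m → Fin m → ℝ) → ℝ, (∀ x ∈ D, ContDiffAt ℝ 2 ψ x.2) ∧ f = fun x => ψ x.2

/-- A network whose input is a pair of `m × m` matrices in the open set `D`: for `l < L` the `l`-th
gate has the result `g l = φ l (u l 1, …, u l a)`, where every `u l i` is the result of an earlier
gate or a function of one of the two matrices. Every `F z` is the result of a gate or a function of
one of the two matrices; it is the output for the entry `z` of the product. -/
structure Network (m a : ℕ) where
  L : ℕ
  D : Set (Pairs ℝ m)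
  φ : ℕ → (Fin a → ℝ) → ℝ
  u : ℕ → Fin a → Pairs ℝ m → ℝ
  g : ℕ → Pairs ℝ m → ℝ
  F : Fin m × Fin m → Pairs ℝ m → ℝ
  isOpen : IsOpen D
  input : ∀ l < L, ∀ i, (∃ s < l, u l i = g s) ∨ OneMatrix D (u l i)
  output : ∀ z, (∃ s < L, F z = g s) ∨ OneMatrix D (F z)
  gate : ∀ l < L, ∀ x ∈ D, ContDiffAt ℝ 2 (φ l) (fun i => u l i x) ∧
    g l x = φ l (fun i => u l i x)

namespace Network

variable {m a : ℕ} (N : Network m a)

/-- At the input `x` the `l`-th gate is bounded by `K`: the sum of the absolute values of the first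
partial derivatives of `φ l` at the values of its inputs is at most `K`, and so is the sum of the
absolute values of the second partial derivatives; and the inputs which are not results of earlier
gates have gradients of Euclidean norm at most `K` at `x`. -/
def Bounded (K : ℝ) (x : Pairs ℝ m) (l : ℕ) : Prop :=
  ∑ i, |pd (N.φ l) i (fun i => N.u l i x)| ≤ K ∧
    ∑ i, ∑ j, |pd (pd (N.φ l) i) j (fun i => N.u l i x)| ≤ K ∧
      ∀ i, (∃ s < l, N.u l i = N.g s) ∨ gradSq (N.u l i) x ≤ K ^ 2

/-- The number of gates which are not bounded by `K` at `x`. -/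
noncomputable def unbounded (K : ℝ) (x : Pairs ℝ m) : ℕ :=
  {l | l < N.L ∧ ¬ N.Bounded K x l}.ncard

/-- The network gives the entries of the product with positions in `Ω` for the input `x`. -/
def Gives (Ω : Finset (Fin m × Fin m)) (x : Pairs ℝ m) : Prop :=
  x ∈ N.D ∧ ∀ z ∈ Ω, N.F z x = ∑ k, x.1 z.1 k * x.2 k z.2

end Network

end Pool.Agent.Y538.Bd
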