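import Mathlib

/-!
# Random sign matrices
-/

set_option autoImplicit false
set_option linter.unusedSectionVars false

namespace Pool.Agent.Y538.Bd

open Finset

section signs

variable {I : Type} [Fintype I] [DecidableEq I]

/-- signs -/
def sg (ε : I → Bool) (p : I) : ℝ := if ε p then 1 else -1

lemma sg_sq (ε : I → Bool) (p : I) : sg ε p * sg ε p = 1 := by
  unfold sg; split_ifs <;> norm_num

/-- flipping a sign -/
def flip (p : I) (ε : I → Bool) : I → Bool := Function.update ε p (!ε p)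

lemma flip_flip (p : I) : Function.Involutive (flip p) := by
  intro ε
  funext q
  unfold flip
  by_cases h : q = p
  · subst h; simp
  · simp [h]

lemma sg_flip_self (p : I) (ε : I → Bool) : sg (flip p ε) p = - sg ε p := by
  unfold sg flip
  rw [Function.update_self]
  cases ε p <;> simp

lemma sg_flip_ne {p q : I} (h : q ≠ p) (ε : I → Bool) : sg (flip p ε) q = sg ε q := by
  unfold sg flip
  rw [Function.update_of_ne h]

lemma sum_zero (p : I) (F : (I → Bool) → ℝ) (h : ∀ ε, F (flip p ε) = - F ε) : ∑ ε, F ε = 0 := by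
  have h1 : ∑ ε, F ε = ∑ ε, F (flip p ε) :=
    (Equiv.sum_comp (flip_flip p).toPerm F).symm
  have h2 : ∑ ε, F (flip p ε) = - ∑ ε, F ε := by
    rw [← Finset.sum_neg_distrib]
    exact Finset.sum_congr rfl fun ε _ => h ε
  linarith

lemma card_signs : ∑ _ε : I → Bool, (1 : ℝ) = 2 ^ Fintype.card I := by
  simp

/-- second moments -/
theorem sum_sq (c : I → ℝ) :
    ∑ ε : I → Bool, (∑ p, c p * sg ε p) ^ 2 = 2 ^ Fintype.card I * ∑ p, c p ^ 2 := by
  have h1 : ∀ ε : I → Bool, (∑ p, c p * sg ε p) ^ 2 =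
      ∑ p, ∑ q, c p * c q * (sg ε p * sg ε q) := by
    intro ε
    rw [pow_two, Finset.sum_mul_sum]
    refine Finset.sum_congr rfl fun p _ => Finset.sum_congr rfl fun q _ => by ring
  simp only [h1]
  rw [Finset.sum_comm, Finset.mul_sum]
  refine Finset.sum_congr rfl fun p _ => ?_
  rw [Finset.sum_comm, Fintype.sum_eq_single p]
  · simp only [sg_sq, mul_one]
    rw [Finset.sum_const, Finset.card_univ]
    simp only [Fintype.card_fun, Fintype.card_bool, nsmul_eq_mul]
    push_cast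
    ring
  · intro q hq
    refine sum_zero p _ fun ε => ?_
    rw [sg_flip_self, sg_flip_ne hq]
    ring

/-- exponential moments -/
theorem sum_exp (c : I → ℝ) :
    ∑ ε : I → Bool, Real.exp (∑ p, c p * sg ε p) ≤
      2 ^ Fintype.card I * Real.exp ((∑ p, c p ^ 2) / 2) := by
  have h1 : ∑ ε : I → Bool, Real.exp (∑ p, c p * sg ε p) =
      ∏ p, ∑ b : Bool, Real.exp (c p * (if b then 1 else -1)) := by
    rw [Finset.prod_univ_sum, Fintype.piFinset_univ]
    refine Finset.sum_congr rfl fun ε _ => ?_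
    rw [Real.exp_sum]
    rfl
  rw [h1]
  have h2 : ∀ p, ∑ b : Bool, Real.exp (c p * (if b then 1 else -1)) = 2 * Real.cosh (c p) := by
    intro p
    rw [Fintype.sum_bool, Real.cosh_eq]
    simp
    ring
  simp only [h2]
  rw [Finset.prod_mul_distrib, Finset.prod_const, Finset.card_univ]
  refine mul_le_mul_of_nonneg_left ?_ (by positivity)
  calc ∏ p, Real.cosh (c p) ≤ ∏ p, Real.exp (c p ^ 2 / 2) :=
        Finset.prod_le_prod (fun p _ => (Real.cosh_pos _).le) fun p _ =>
          Real.cosh_le_exp_half_sq (c p)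
    _ = Real.exp ((∑ p, c p ^ 2) / 2) := by
        rw [← Real.exp_sum, Finset.sum_div]

theorem sum_cosh (c : I → ℝ) :
    ∑ ε : I → Bool, Real.cosh (∑ p, c p * sg ε p) ≤
      2 ^ Fintype.card I * Real.exp ((∑ p, c p ^ 2) / 2) := by
  have h1 := sum_exp c
  have h2 := sum_exp (fun p => - c p)
  have h3 : ∑ ε : I → Bool, Real.cosh (∑ p, c p * sg ε p) =
      (∑ ε : I → Bool, Real.exp (∑ p, c p * sg ε p) +
        ∑ ε : I → Bool, Real.exp (∑ p, - c p * sg ε p)) / 2 := by
    rw [← Finset.sum_add_distrib, Finset.sum_div]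
    refine Finset.sum_congr rfl fun ε _ => ?_
    rw [Real.cosh_eq]
    simp only [neg_mul, Finset.sum_neg_distrib]
  rw [h3]
  have h4 : ∑ p, (- c p) ^ 2 = ∑ p, c p ^ 2 := by simp
  rw [h4] at h2
  linarith

end signs

section matrices

variable {m : ℕ}

/-- fourth moments -/
theorem sum_gram : ∑ ε : Fin m × Fin m → Bool,
    ∑ j, ∑ j', (∑ i, sg ε (i, j) * sg ε (i, j')) ^ 2 ≤
      2 ^ Fintype.card (Fin m × Fin m) * (2 * (m : ℝ) ^ 3) := by
  set N : ℝ := 2 ^ Fintype.card (Fin m × Fin m) with hN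
  have hN0 : 0 ≤ N := by positivity
  have hcard : ∑ _ε : Fin m × Fin m → Bool, (1 : ℝ) = N := card_signs
  have h1 : ∀ j j' : Fin m, ∑ ε : Fin m × Fin m → Bool, (∑ i, sg ε (i, j) * sg ε (i, j')) ^ 2 ≤
      if j = j' then N * (m : ℝ) ^ 2 else N * m := by
    intro j j'
    split_ifs with hj
    · subst hj
      simp only [sg_sq, Finset.sum_const, Finset.card_univ, Fintype.card_fin, nsmul_eq_mul,
        mul_one]
      rw [← nsmul_eq_mul, ← Finset.card_univ, ← Finset.sum_const, hN]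
      simp
    · have h2 : ∀ ε : Fin m × Fin m → Bool, (∑ i, sg ε (i, j) * sg ε (i, j')) ^ 2 =
          ∑ i, ∑ i', (sg ε (i, j) * sg ε (i, j')) * (sg ε (i', j) * sg ε (i', j')) := by
        intro ε
        rw [pow_two, Finset.sum_mul_sum]
      simp only [h2]
      rw [Finset.sum_comm]
      have h3 : ∀ i : Fin m, ∑ ε : Fin m × Fin m → Bool,
          ∑ i', (sg ε (i, j) * sg ε (i, j')) * (sg ε (i', j) * sg ε (i', j')) = N := by
        intro i
        rw [Finset.sum_comm, Fintype.sum_eq_single i]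
        · rw [← hcard]
          refine Finset.sum_congr rfl fun ε _ => ?_
          have e1 := sg_sq ε (i, j)
          have e2 := sg_sq ε (i, j')
          calc (sg ε (i, j) * sg ε (i, j')) * (sg ε (i, j) * sg ε (i, j')) =
              (sg ε (i, j) * sg ε (i, j)) * (sg ε (i, j') * sg ε (i, j')) := by ring
            _ = 1 := by rw [e1, e2, mul_one]
        · intro i' hi'
          refine sum_zero (i, j) _ fun ε => ?_
          have n1 : ((i, j') : Fin m × Fin m) ≠ (i, j) := fun h => hj (Prod.ext_iff.mp h).2.symm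
          have n2 : ((i', j) : Fin m × Fin m) ≠ (i, j) := fun h => hi' (Prod.ext_iff.mp h).1
          have n3 : ((i', j') : Fin m × Fin m) ≠ (i, j) := fun h => hi' (Prod.ext_iff.mp h).1
          rw [sg_flip_self, sg_flip_ne n1, sg_flip_ne n2, sg_flip_ne n3]
          ring
      simp only [h3]
      rw [Finset.sum_const, Finset.card_univ, Fintype.card_fin, nsmul_eq_mul, mul_comm]
  calc ∑ ε : Fin m × Fin m → Bool, ∑ j, ∑ j', (∑ i, sg ε (i, j) * sg ε (i, j')) ^ 2
      = ∑ j, ∑ j', ∑ ε : Fin m × Fin m → Bool, (∑ i, sg ε (i, j) * sg ε (i, j')) ^ 2 := by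
        rw [Finset.sum_comm]
        refine Finset.sum_congr rfl fun j _ => ?_
        rw [Finset.sum_comm]
    _ ≤ ∑ j : Fin m, ∑ j' : Fin m, (if j = j' then N * (m : ℝ) ^ 2 else N * m) :=
        Finset.sum_le_sum fun j _ => Finset.sum_le_sum fun j' _ => h1 j j'
    _ ≤ ∑ j : Fin m, ∑ j' : Fin m, ((if j = j' then N * (m : ℝ) ^ 2 else 0) + N * m) := by
        refine Finset.sum_le_sum fun j _ => Finset.sum_le_sum fun j' _ => ?_
        have : (0 : ℝ) ≤ N * m := by positivity
        split_ifs <;> linarith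
    _ = N * (2 * (m : ℝ) ^ 3) := by
        simp only [Finset.sum_add_distrib, Finset.sum_ite_eq, Finset.mem_univ, if_true,
          Finset.sum_const, Finset.card_univ, Fintype.card_fin, nsmul_eq_mul]
        ring

/-- a sign matrix as a vector -/
noncomputable def sgv (ε : Fin m × Fin m → Bool) : EuclideanSpace ℝ (Fin m × Fin m) :=
  WithLp.toLp 2 (sg ε)

lemma inner_sgv (c : EuclideanSpace ℝ (Fin m × Fin m)) (ε : Fin m × Fin m → Bool) :
    inner ℝ c (sgv ε) = ∑ p, c p * sg ε p := by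
  rw [PiLp.inner_apply]
  refine Finset.sum_congr rfl fun p _ => ?_
  simp [sgv, mul_comm]

lemma norm_sq_eq (c : EuclideanSpace ℝ (Fin m × Fin m)) : ‖c‖ ^ 2 = ∑ p, c p ^ 2 := by
  rw [EuclideanSpace.norm_sq_eq]
  refine Finset.sum_congr rfl fun p _ => ?_
  rw [Real.norm_eq_abs, sq_abs]

lemma proj_norm_sq {E : Type*} [NormedAddCommGroup E] [InnerProductSpace ℝ E]
    [FiniteDimensional ℝ E] (S : Submodule ℝ E) (x : E) :
    ‖S.starProjection x‖ ^ 2 = ∑ q, inner ℝ ((stdOrthonormalBasis ℝ S q : S) : E) x ^ 2 := by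
  have h1 : ‖S.starProjection x‖ = ‖S.orthogonalProjection x‖ := rfl
  rw [h1, ← (stdOrthonormalBasis ℝ S).sum_sq_norm_inner_right]
  refine Finset.sum_congr rfl fun q _ => ?_
  rw [Real.norm_eq_abs, sq_abs]
  congr 1
  rw [← Submodule.inner_orthogonalProjection_eq_of_mem_left]

/-- the first moment of the squared projection -/
theorem sum_proj (S : Submodule ℝ (EuclideanSpace ℝ (Fin m × Fin m))) :
    ∑ ε, ‖S.starProjection (sgv ε)‖ ^ 2 =
      2 ^ Fintype.card (Fin m × Fin m) * (Module.finrank ℝ S : ℝ) := by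
  simp only [proj_norm_sq, inner_sgv]
  rw [Finset.sum_comm]
  simp only [sum_sq]
  rw [← Finset.mul_sum]
  congr 1
  have h1 : ∀ q, ∑ p, (((stdOrthonormalBasis ℝ S q : S) : EuclideanSpace ℝ (Fin m × Fin m)) p) ^ 2
      = 1 := by
    intro q
    rw [← norm_sq_eq]
    have h2 : ‖((stdOrthonormalBasis ℝ S q : S) : EuclideanSpace ℝ (Fin m × Fin m))‖ = 1 :=
      (stdOrthonormalBasis ℝ S).norm_eq_one q
    rw [h2, one_pow]
  simp only [h1]
  simp

/-- **A good sign matrix.** -/
theorem exists_signs (hm : 1 ≤ m) (S : Submodule ℝ (EuclideanSpace ℝ (Fin m × Fin m)))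
    {s : ℝ} (hs : 0 < s) (hS : (Module.finrank ℝ S : ℝ) ≤ s) {U : Type} (F : Finset U)
    (c : U → EuclideanSpace ℝ (Fin m × Fin m)) {B M : ℝ} (hB : 0 < B) (hM : 0 < M)
    (hc : ∀ x ∈ F, ‖c x‖ ≤ B) (hF : (F.card : ℝ) ≤ M) :
    ∃ ε : Fin m × Fin m → Bool, ‖S.starProjection (sgv ε)‖ ^ 2 ≤ 4 * s ∧
      ∑ j, ∑ j', (∑ i, sg ε (i, j) * sg ε (i, j')) ^ 2 ≤ 8 * (m : ℝ) ^ 3 ∧
      ∀ x ∈ F, |inner ℝ (c x) (sgv ε)| ≤ B * Real.log (8 * M * Real.exp (1 / 2)) := by
  classical
  set N : ℝ := 2 ^ Fintype.card (Fin m × Fin m) with hN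
  have hN0 : 0 < N := by positivity
  have hm0 : (0 : ℝ) < m := by exact_mod_cast hm
  have he : 0 < Real.exp (1 / 2) := Real.exp_pos _
  let X1 : (Fin m × Fin m → Bool) → ℝ := fun ε => ‖S.starProjection (sgv ε)‖ ^ 2 / (4 * s)
  let X2 : (Fin m × Fin m → Bool) → ℝ := fun ε =>
    (∑ j, ∑ j', (∑ i, sg ε (i, j) * sg ε (i, j')) ^ 2) / (8 * (m : ℝ) ^ 3)
  let X3 : (Fin m × Fin m → Bool) → ℝ := fun ε =>
    (∑ x ∈ F, Real.cosh (inner ℝ (c x) (sgv ε) / B)) / (4 * M * Real.exp (1 / 2))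
  have g1 : ∑ ε, X1 ε ≤ N / 4 := by
    simp only [X1]
    rw [← Finset.sum_div, sum_proj, div_le_iff₀ (by positivity)]
    calc N * (Module.finrank ℝ S : ℝ) ≤ N * s := by gcongr
      _ = N / 4 * (4 * s) := by ring
  have g2 : ∑ ε, X2 ε ≤ N / 4 := by
    simp only [X2]
    rw [← Finset.sum_div, div_le_iff₀ (by positivity)]
    refine sum_gram.trans (le_of_eq ?_)
    ring
  have g3 : ∑ ε, X3 ε ≤ N / 4 := by
    simp only [X3]
    rw [← Finset.sum_div, div_le_iff₀ (by positivity), Finset.sum_comm]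
    have h1 : ∀ x ∈ F, ∑ ε, Real.cosh (inner ℝ (c x) (sgv ε) / B) ≤ N * Real.exp (1 / 2) := by
      intro x hx
      have h2 := sum_cosh (fun p => c x p / B)
      have h3 : ∀ ε, (∑ p, c x p / B * sg ε p) = inner ℝ (c x) (sgv ε) / B := by
        intro ε
        rw [inner_sgv, Finset.sum_div]
        exact Finset.sum_congr rfl fun p _ => by ring
      simp only [h3] at h2
      refine h2.trans ?_
      refine mul_le_mul_of_nonneg_left (Real.exp_le_exp.mpr ?_) hN0.le
      have h4 : ∑ p, (c x p / B) ^ 2 = ‖c x‖ ^ 2 / B ^ 2 := by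
        rw [norm_sq_eq, Finset.sum_div]
        exact Finset.sum_congr rfl fun p _ => by rw [div_pow]
      rw [h4]
      have h5 : ‖c x‖ ^ 2 / B ^ 2 ≤ 1 := by
        rw [div_le_one (by positivity)]
        have := hc x hx
        have h0 := norm_nonneg (c x)
        gcongr
      linarith
    calc ∑ x ∈ F, ∑ ε, Real.cosh (inner ℝ (c x) (sgv ε) / B) ≤
        ∑ _x ∈ F, N * Real.exp (1 / 2) := Finset.sum_le_sum h1
      _ = F.card * (N * Real.exp (1 / 2)) := by rw [Finset.sum_const, nsmul_eq_mul]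
      _ ≤ M * (N * Real.exp (1 / 2)) := by gcongr
      _ = N / 4 * (4 * M * Real.exp (1 / 2)) := by ring
  have hlt : ∑ ε, (X1 ε + X2 ε + X3 ε) < ∑ _ε : Fin m × Fin m → Bool, (1 : ℝ) := by
    rw [card_signs, Finset.sum_add_distrib, Finset.sum_add_distrib]
    linarith
  obtain ⟨ε, -, hε⟩ := Finset.exists_lt_of_sum_lt hlt
  have p1 : 0 ≤ X1 ε := by simp only [X1]; positivity
  have p2 : 0 ≤ X2 ε := by
    simp only [X2]
    refine div_nonneg (Finset.sum_nonneg fun _ _ => Finset.sum_nonneg fun _ _ => sq_nonneg _) ?_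
    positivity
  have p3 : 0 ≤ X3 ε := by
    simp only [X3]
    refine div_nonneg (Finset.sum_nonneg fun _ _ => (Real.cosh_pos _).le) ?_
    positivity
  refine ⟨ε, ?_, ?_, ?_⟩
  · have h1 : X1 ε ≤ 1 := by linarith
    simp only [X1] at h1
    rw [div_le_one (by positivity)] at h1
    exact h1
  · have h1 : X2 ε ≤ 1 := by linarith
    simp only [X2] at h1
    rw [div_le_one (by positivity)] at h1
    exact h1
  · intro x hx
    have h1 : X3 ε ≤ 1 := by linarith
    simp only [X3] at h1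
    rw [div_le_one (by positivity)] at h1
    have h2 : Real.cosh (inner ℝ (c x) (sgv ε) / B) ≤ 4 * M * Real.exp (1 / 2) :=
      (Finset.single_le_sum (f := fun x => Real.cosh (inner ℝ (c x) (sgv ε) / B))
        (fun _ _ => (Real.cosh_pos _).le) hx).trans h1
    have h3 : Real.exp |inner ℝ (c x) (sgv ε) / B| ≤ 8 * M * Real.exp (1 / 2) := by
      have h4 : Real.exp |inner ℝ (c x) (sgv ε) / B| ≤
          2 * Real.cosh (inner ℝ (c x) (sgv ε) / B) := by
        rw [← Real.cosh_abs, Real.cosh_eq]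
        have := Real.exp_pos (-|inner ℝ (c x) (sgv ε) / B|)
        linarith
      linarith
    have h5 := (Real.le_log_iff_exp_le (by positivity)).mpr h3
    rw [abs_div, abs_of_pos hB, div_le_iff₀ hB] at h5
    linarith

end matrices

end Pool.Agent.Y538.Bd
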