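import Mathlib

/-!
# Determinants of bounded linear computations
-/

set_option autoImplicit false
set_option linter.unusedSectionVars false

namespace Pool.Agent.Y538.Bd

open Finset

section hadamard

variable {k : ℕ}

/-- Hadamard's inequality. -/
theorem hadamard (A : Matrix (Fin k) (Fin k) ℝ) :
    |A.det| ≤ ∏ j, Real.sqrt (∑ i, A i j ^ 2) := by
  classical
  let b := EuclideanSpace.basisFun (Fin k) ℝ
  let v : Fin k → EuclideanSpace ℝ (Fin k) := fun j => WithLp.toLp 2 (fun i => A i j)
  haveI : Fact (Module.finrank ℝ (EuclideanSpace ℝ (Fin k)) = k) := ⟨by simp⟩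
  have h := (b.toBasis.orientation).abs_volumeForm_apply_le v
  rw [(b.toBasis.orientation).volumeForm_robust b rfl] at h
  have e1 : b.toBasis.det v = A.det := by
    rw [Module.Basis.det_apply]
    congr 1
  have e2 : ∀ j, ‖v j‖ = Real.sqrt (∑ i, A i j ^ 2) := by
    intro j
    rw [EuclideanSpace.norm_eq]
    congr 1
    refine Finset.sum_congr rfl fun i _ => ?_
    simp [v, sq_abs]
  rw [e1] at h
  simpa only [e2] using h

variable {E : Type*} [NormedAddCommGroup E] [InnerProductSpace ℝ E]

/-- Determinants with respect to an orthonormal system. -/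
theorem frame_det_le {e : Fin k → E} (he : Orthonormal ℝ e) {v : Fin k → E} {K : ℝ}
    (hv : ∀ j, ‖v j‖ ≤ K) : |(Matrix.of fun i j => inner ℝ (e i) (v j)).det| ≤ K ^ k := by
  classical
  refine (hadamard _).trans ?_
  calc ∏ j, Real.sqrt (∑ i, (Matrix.of fun i j => inner ℝ (e i) (v j)) i j ^ 2)
      ≤ ∏ _j : Fin k, K := by
        refine Finset.prod_le_prod (fun j _ => Real.sqrt_nonneg _) fun j _ => ?_
        refine (Real.sqrt_le_sqrt ?_).trans (le_of_eq (Real.sqrt_sq (norm_nonneg _)) |>.trans (hv j))
        have h := he.sum_inner_products_le (v j) (s := Finset.univ)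
        simpa [Real.norm_eq_abs, sq_abs] using h
    _ = K ^ k := by simp

end hadamard

section bd

variable {k : ℕ}

/-- All determinants with columns in `S` are at most `D`. -/
def Bd (S : Set (Fin k → ℝ)) (D : ℝ) : Prop :=
  ∀ w : Fin k → Fin k → ℝ, (∀ j, w j ∈ S) → |(Matrix.of fun i j => w j i).det| ≤ D

lemma Bd.mono {S T : Set (Fin k → ℝ)} {D D' : ℝ} (h : Bd T D) (hS : S ⊆ T) (hD : D ≤ D') :
    Bd S D' := fun w hw => (h w fun j => hS (hw j)).trans hD

lemma det_of_update (w : Fin k → Fin k → ℝ) (j : Fin k) {ι : Type*} (s : Finset ι) (c : ι → ℝ)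
    (y : ι → Fin k → ℝ) (h : w j = ∑ t ∈ s, c t • y t) :
    (Matrix.of fun i j => w j i).det =
      ∑ t ∈ s, c t * (Matrix.of fun i j' => (Function.update w j (y t)) j' i).det := by
  classical
  have h1 : ∀ z : Fin k → Fin k → ℝ, (Matrix.of fun i j => z j i).det =
      Matrix.detRowAlternating (R := ℝ) z := by
    intro z
    have : (Matrix.of fun i j => z j i) = (Matrix.of z).transpose := rfl
    rw [this, Matrix.det_transpose]
    rfl
  rw [h1]
  have h2 : w = Function.update w j (∑ t ∈ s, c t • y t) := by
    rw [← h, Function.update_eq_self]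
  rw [h2]
  have h3 := (Matrix.detRowAlternating (R := ℝ) (n := Fin k)).toMultilinearMap.map_update_sum s j
    (fun t => c t • y t) w
  simp only [AlternatingMap.coe_multilinearMap] at h3
  rw [h3]
  refine Finset.sum_congr rfl fun t _ => ?_
  rw [h1]
  have h4 := (Matrix.detRowAlternating (R := ℝ) (n := Fin k)).map_update_smul w j (c t) (y t)
  rw [h4, smul_eq_mul, Function.update_idem]

/-- Adding a bounded linear combination. -/
theorem Bd.insert {S : Set (Fin k → ℝ)} {D C : ℝ} (h : Bd S D) (hD : 0 ≤ D) (hC : 1 ≤ C)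
    {ι : Type*} (s : Finset ι) (c : ι → ℝ) (y : ι → Fin k → ℝ) (hy : ∀ t ∈ s, y t ∈ S)
    (hc : ∑ t ∈ s, |c t| ≤ C) : Bd (insert (∑ t ∈ s, c t • y t) S) (C * D) := by
  classical
  intro w hw
  by_cases hall : ∀ j, w j ∈ S
  · calc |(Matrix.of fun i j => w j i).det| ≤ D := h w hall
      _ ≤ C * D := by nlinarith
  push Not at hall
  obtain ⟨j, hj⟩ := hall
  have hwj : w j = ∑ t ∈ s, c t • y t := by
    rcases hw j with h1 | h1
    · exact h1
    · exact absurd h1 hj
  by_cases h2 : ∃ j', j' ≠ j ∧ w j' ∉ S
  · obtain ⟨j', hne, hj'⟩ := h2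
    have hwj' : w j' = ∑ t ∈ s, c t • y t := by
      rcases hw j' with h1 | h1
      · exact h1
      · exact absurd h1 hj'
    have : (Matrix.of fun i j => w j i).det = 0 := by
      refine Matrix.det_zero_of_column_eq hne fun i => ?_
      simp only [Matrix.of_apply]
      rw [hwj, hwj']
    rw [this, abs_zero]
    positivity
  · push Not at h2
    rw [det_of_update w j s c y hwj]
    calc |∑ t ∈ s, c t * (Matrix.of fun i j' => (Function.update w j (y t)) j' i).det|
        ≤ ∑ t ∈ s, |c t * (Matrix.of fun i j' => (Function.update w j (y t)) j' i).det| :=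
          Finset.abs_sum_le_sum_abs _ _
      _ ≤ ∑ t ∈ s, |c t| * D := by
          refine Finset.sum_le_sum fun t ht => ?_
          rw [abs_mul]
          refine mul_le_mul_of_nonneg_left (h _ fun j' => ?_) (abs_nonneg _)
          by_cases hjj : j' = j
          · rw [hjj, Function.update_self]; exact hy t ht
          · rw [Function.update_of_ne hjj]; exact h2 j' hjj
      _ = (∑ t ∈ s, |c t|) * D := by rw [Finset.sum_mul]
      _ ≤ C * D := mul_le_mul_of_nonneg_right hc hD

end bd

section chain

variable {E : Type*} [NormedAddCommGroup E] [InnerProductSpace ℝ E] [FiniteDimensional ℝ E]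

/-- **Greedy choice.** -/
theorem chain (V₀ : Submodule ℝ E) (T : Set E) {τ : ℝ} (hτ : 0 < τ) (k : ℕ)
    (hstep : ∀ V : Submodule ℝ E, V₀ ≤ V → Module.finrank ℝ V ≤ Module.finrank ℝ V₀ + k →
      ∃ s ∈ T, τ ≤ ‖s - V.starProjection s‖) :
    ∃ e s : Fin k → E, Orthonormal ℝ e ∧ (∀ i, e i ∈ V₀ᗮ) ∧ (∀ i, s i ∈ T) ∧
      τ ^ k ≤ |(Matrix.of fun i j => inner ℝ (e i) (s j)).det| := by
  classical
  have key : ∀ j ≤ k, ∃ (e s : ℕ → E) (V : Submodule ℝ E), V₀ ≤ V ∧
      Module.finrank ℝ V ≤ Module.finrank ℝ V₀ + j ∧ (∀ i < j, e i ∈ V ∧ s i ∈ V) ∧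
      (∀ i < j, ‖e i‖ = 1) ∧ (∀ i < j, ∀ i' < i, inner ℝ (e i) (e i') = 0) ∧
      (∀ i < j, e i ∈ V₀ᗮ) ∧ (∀ i < j, s i ∈ T) ∧ (∀ i < j, τ ≤ inner ℝ (e i) (s i)) ∧
      (∀ i < j, ∀ i' < i, inner ℝ (e i) (s i') = 0) := by
    intro j
    induction j with
    | zero =>
      intro _
      exact ⟨0, 0, V₀, le_rfl, by simp, by simp, by simp, by simp, by simp, by simp, by simp,
        by simp⟩
    | succ j ih =>
      intro hj
      obtain ⟨e, s, V, hV, hdim, hmem, hn, ho, hV0, hT, hd, hz⟩ := ih (by omega)
      obtain ⟨σ, hσ, hτσ⟩ := hstep V hV (by omega)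
      set p := σ - V.starProjection σ with hp
      have hp0 : 0 < ‖p‖ := hτ.trans_le hτσ
      have hpV : p ∈ Vᗮ := by
        rw [hp]; exact V.sub_starProjection_mem_orthogonal σ
      have hperp : ∀ v ∈ V, inner ℝ p v = 0 := by
        intro v hv
        rw [real_inner_comm]
        exact (Submodule.mem_orthogonal V p).mp hpV v hv
      have hpσ : inner ℝ p σ = ‖p‖ ^ 2 := by
        have h1 : σ = p + V.starProjection σ := by rw [hp]; abel
        conv_lhs => rw [h1]
        rw [inner_add_right, hperp _ (Submodule.starProjection_apply_mem V σ), add_zero,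
          real_inner_self_eq_norm_sq]
      let f : E := (‖p‖⁻¹ : ℝ) • p
      have hfV : ∀ v ∈ V, inner ℝ f v = 0 := by
        intro v hv
        simp only [f]
        rw [inner_smul_left, hperp v hv, mul_zero]
      refine ⟨fun i => if i < j then e i else f, fun i => if i < j then s i else σ,
        V ⊔ Submodule.span ℝ {σ}, hV.trans le_sup_left, ?_, ?_, ?_, ?_, ?_, ?_, ?_, ?_⟩
      · calc Module.finrank ℝ ↥(V ⊔ Submodule.span ℝ {σ}) ≤
            Module.finrank ℝ V + Module.finrank ℝ (Submodule.span ℝ {σ}) :=
              Submodule.finrank_add_le_finrank_add_finrank _ _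
          _ ≤ Module.finrank ℝ V + 1 := by
              refine Nat.add_le_add_left ?_ _
              refine (finrank_span_le_card ({σ} : Set E)).trans ?_
              simp
          _ ≤ _ := by omega
      · intro i hi
        by_cases hij : i < j
        · simp only [if_pos hij]
          exact ⟨Submodule.mem_sup_left (hmem i hij).1, Submodule.mem_sup_left (hmem i hij).2⟩
        · simp only [if_neg hij]
          have hσm : σ ∈ V ⊔ Submodule.span ℝ {σ} :=
            Submodule.mem_sup_right (Submodule.mem_span_singleton_self σ)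
          refine ⟨Submodule.smul_mem _ _ ?_, hσm⟩
          rw [hp]
          exact Submodule.sub_mem _ hσm (Submodule.mem_sup_left (Submodule.starProjection_apply_mem V σ))
      · intro i hi
        by_cases hij : i < j
        · simp only [if_pos hij]; exact hn i hij
        · simp only [if_neg hij, f]
          rw [norm_smul, norm_inv, norm_norm, inv_mul_cancel₀ hp0.ne']
      · intro i hi i' hi'
        by_cases hij : i < j
        · simp only [if_pos hij, if_pos (hi'.trans hij)]
          exact ho i hij i' hi'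
        · have hi'j : i' < j := by omega
          simp only [if_neg hij, if_pos hi'j]
          exact hfV _ (hmem i' hi'j).1
      · intro i hi
        by_cases hij : i < j
        · simp only [if_pos hij]; exact hV0 i hij
        · simp only [if_neg hij, f]
          exact Submodule.smul_mem _ _ (Submodule.orthogonal_le hV hpV)
      · intro i hi
        by_cases hij : i < j
        · simp only [if_pos hij]; exact hT i hij
        · simp only [if_neg hij]; exact hσ
      · intro i hi
        by_cases hij : i < j
        · simp only [if_pos hij]; exact hd i hij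
        · simp only [if_neg hij, f]
          rw [inner_smul_left, hpσ]
          simp only [conj_trivial]
          have : ‖p‖⁻¹ * ‖p‖ ^ 2 = ‖p‖ := by field_simp
          rw [this]; exact hτσ
      · intro i hi i' hi'
        by_cases hij : i < j
        · simp only [if_pos hij, if_pos (hi'.trans hij)]
          exact hz i hij i' hi'
        · have hi'j : i' < j := by omega
          simp only [if_neg hij, if_pos hi'j]
          exact hfV _ (hmem i' hi'j).2
  obtain ⟨e, s, V, -, -, -, hn, ho, hV0, hT, hd, hz⟩ := key k le_rfl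
  refine ⟨fun i => e i, fun i => s i, ?_, fun i => hV0 i i.2, fun i => hT i i.2, ?_⟩
  · refine ⟨fun i => hn i i.2, fun i j hij => ?_⟩
    rcases lt_or_gt_of_ne hij with h | h
    · show inner ℝ (e i) (e j) = 0
      rw [real_inner_comm]; exact ho j j.2 i h
    · exact ho i i.2 j h
  · rw [Matrix.det_of_upperTriangular, Finset.abs_prod]
    · calc τ ^ k = ∏ _i : Fin k, τ := by simp
        _ ≤ _ := by
          refine Finset.prod_le_prod (fun _ _ => hτ.le) fun i _ => ?_
          exact (hd i i.2).trans (le_abs_self _)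
    · intro i j hji
      exact hz i i.2 j hji

end chain

end Pool.Agent.Y538.Bd
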